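import Pool.Agent.MP_e5b4ec_an.Defs

open Real Complex Metric MeasureTheory Filter Topology Set

namespace Pool.Agent.MP_e5b4ec_an

/-- first Fourier coefficient -/
noncomputable def Z (v : ℝ → ℝ) : ℂ :=
  (1 / π : ℂ) * ∫ θ in (0 : ℝ)..(2 * π), (v θ : ℂ) * Complex.exp (-(θ * Complex.I))

/-- Schwarz integral -/
noncomputable def S (v : ℝ → ℝ) (z : ℂ) : ℂ :=
  (Complex.I / (2 * π)) * ∫ θ in (0 : ℝ)..(2 * π),
    (Complex.exp (θ * Complex.I) + z) / (Complex.exp (θ * Complex.I) - z) * (v θ : ℂ)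

lemma norm_e (θ : ℝ) : ‖Complex.exp (θ * Complex.I)‖ = 1 := Complex.norm_exp_ofReal_mul_I θ

lemma e_sub_ne {z : ℂ} (hz : ‖z‖ < 1) (θ : ℝ) : Complex.exp (θ * Complex.I) - z ≠ 0 := by
  intro h
  have : Complex.exp (θ * Complex.I) = z := sub_eq_zero.mp h
  rw [← this, norm_e] at hz
  exact lt_irrefl _ hz

lemma cont_ker {v : ℝ → ℝ} (hv : Continuous v) {z : ℂ} (hz : ‖z‖ < 1) :
    Continuous (fun θ : ℝ =>
      (Complex.exp (θ * Complex.I) + z) / (Complex.exp (θ * Complex.I) - z) * (v θ : ℂ)) := by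
  refine Continuous.mul (Continuous.div ?_ ?_ (fun θ => e_sub_ne hz θ)) ?_
  · fun_prop
  · fun_prop
  · exact Complex.continuous_ofReal.comp hv

lemma cont_ker' {v : ℝ → ℝ} (hv : Continuous v) {z : ℂ} (hz : ‖z‖ < 1) :
    Continuous (fun θ : ℝ =>
      (2 * Complex.exp (θ * Complex.I)) / (Complex.exp (θ * Complex.I) - z) ^ 2 * (v θ : ℂ)) := by
  refine Continuous.mul (Continuous.div ?_ ?_ (fun θ => pow_ne_zero 2 (e_sub_ne hz θ))) ?_
  · fun_prop
  · fun_prop
  · exact Complex.continuous_ofReal.comp hv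

lemma hasDerivAt_S {v : ℝ → ℝ} (hv : Continuous v) {z : ℂ} (hz : ‖z‖ < 1) :
    HasDerivAt (S v) ((Complex.I / (2 * π)) * ∫ θ in (0 : ℝ)..(2 * π),
      (2 * Complex.exp (θ * Complex.I)) / (Complex.exp (θ * Complex.I) - z) ^ 2 * (v θ : ℂ)) z := by
  unfold S
  refine HasDerivAt.const_mul _ ?_
  set r : ℝ := (1 - ‖z‖) / 2 with hr
  have hr0 : 0 < r := by rw [hr]; linarith
  have hball : ∀ x ∈ ball z r, ‖x‖ < 1 - r := by
    intro x hx
    rw [mem_ball, dist_eq_norm] at hx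
    have : ‖x‖ ≤ ‖x - z‖ + ‖z‖ := by simpa using norm_add_le (x - z) z
    rw [hr] at hx ⊢
    linarith
  have key := intervalIntegral.hasDerivAt_integral_of_dominated_loc_of_deriv_le
    (μ := volume) (a := (0:ℝ)) (b := 2 * π) (𝕜 := ℂ)
    (F := fun x θ => (Complex.exp (θ * Complex.I) + x) / (Complex.exp (θ * Complex.I) - x) * (v θ : ℂ))
    (F' := fun x θ => (2 * Complex.exp (θ * Complex.I)) / (Complex.exp (θ * Complex.I) - x) ^ 2 * (v θ : ℂ))
    (x₀ := z) (s := ball z r) (bound := fun θ => 2 / r ^ 2 * |v θ|)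
    (ball_mem_nhds z hr0) ?_ ((cont_ker hv hz).intervalIntegrable _ _)
    (cont_ker' hv hz).aestronglyMeasurable ?_ ?_ ?_
  · exact key.2
  · filter_upwards [ball_mem_nhds z hr0] with x hx
    exact (cont_ker hv (by linarith [hball x hx])).aestronglyMeasurable
  · refine ae_of_all _ (fun θ _ x hx => ?_)
    have h1 : r ≤ ‖Complex.exp (θ * Complex.I) - x‖ := by
      have := norm_sub_norm_le (Complex.exp (θ * Complex.I)) x
      rw [norm_e] at this
      linarith [hball x hx]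
    rw [norm_mul, norm_div, norm_mul, norm_e, norm_pow, Complex.norm_real, Real.norm_eq_abs]
    simp only [Complex.norm_ofNat, mul_one]
    gcongr
  · exact (Continuous.mul continuous_const hv.abs).intervalIntegrable _ _
  · refine ae_of_all _ (fun θ _ x hx => ?_)
    have hne := e_sub_ne (z := x) (by linarith [hball x hx]) θ
    refine HasDerivAt.mul_const ?_ _
    have h1 : HasDerivAt (fun y : ℂ => Complex.exp (θ * Complex.I) + y) 1 x :=
      (hasDerivAt_id x).const_add _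
    have h2 : HasDerivAt (fun y : ℂ => Complex.exp (θ * Complex.I) - y) (-1) x :=
      (hasDerivAt_id x).const_sub _
    have h3 := h1.fun_div h2 hne
    have h4 : (2 * Complex.exp (θ * Complex.I)) / (Complex.exp (θ * Complex.I) - x) ^ 2 =
        (1 * (Complex.exp (θ * Complex.I) - x) - (Complex.exp (θ * Complex.I) + x) * -1) /
          (Complex.exp (θ * Complex.I) - x) ^ 2 := by
      congr 1; ring
    rw [h4]
    exact h3

lemma S_diff {v : ℝ → ℝ} (hv : Continuous v) : DifferentiableOn ℂ (S v) (ball 0 1) := by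
  intro z hz
  rw [mem_ball_zero_iff] at hz
  exact (hasDerivAt_S hv hz).differentiableAt.differentiableWithinAt

lemma deriv_S_zero {v : ℝ → ℝ} (hv : Continuous v) :
    HasDerivAt (S v) (Complex.I * Z v) 0 := by
  have h := hasDerivAt_S hv (z := 0) (by simp)
  convert h using 1
  unfold Z
  have : ∀ θ : ℝ, (2 * Complex.exp (θ * Complex.I)) / (Complex.exp (θ * Complex.I) - 0) ^ 2 * (v θ : ℂ)
      = 2 * ((v θ : ℂ) * Complex.exp (-(θ * Complex.I))) := by
    intro θ
    rw [Complex.exp_neg]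
    have := Complex.exp_ne_zero (θ * Complex.I)
    field_simp
    ring
  simp_rw [this]
  rw [intervalIntegral.integral_const_mul]
  have : (π : ℂ) ≠ 0 := by exact_mod_cast Real.pi_ne_zero
  field_simp

lemma S_zero {v : ℝ → ℝ} (h0 : (∫ θ in (0 : ℝ)..(2 * π), v θ) = 0) : S v 0 = 0 := by
  unfold S
  have : ∀ θ : ℝ, (Complex.exp (θ * Complex.I) + 0) / (Complex.exp (θ * Complex.I) - 0) * (v θ : ℂ)
      = (v θ : ℂ) := by
    intro θ
    have := Complex.exp_ne_zero (θ * Complex.I)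
    field_simp
    ring
  simp_rw [this]
  rw [intervalIntegral.integral_ofReal, h0]
  simp

lemma re_ker (z : ℂ) (θ : ℝ) :
    ((Complex.exp (θ * Complex.I) + z) / (Complex.exp (θ * Complex.I) - z)).re
      = (1 - ‖z‖ ^ 2) / ‖Complex.exp (θ * Complex.I) - z‖ ^ 2 := by
  set e := Complex.exp (θ * Complex.I) with he
  have h1 : ‖e‖ = 1 := norm_e θ
  have h2 : e.re ^ 2 + e.im ^ 2 = 1 := by
    have := Complex.sq_norm e
    rw [h1, Complex.normSq_apply] at this
    nlinarith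
  rw [Complex.div_re, ← add_div, Complex.sq_norm (e - z), Complex.sq_norm z, Complex.normSq_apply z]
  congr 1
  simp only [Complex.add_re, Complex.sub_re, Complex.add_im, Complex.sub_im]
  nlinarith

lemma S_im {v : ℝ → ℝ} (hv : Continuous v) {z : ℂ} (hz : ‖z‖ < 1) : (S v z).im = poisson v z := by
  unfold S poisson
  have hI := (cont_ker hv hz).intervalIntegrable (μ := volume) (0:ℝ) (2 * π)
  have h1 : (∫ θ in (0 : ℝ)..(2 * π),
      (Complex.exp (θ * Complex.I) + z) / (Complex.exp (θ * Complex.I) - z) * (v θ : ℂ)).re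
      = ∫ θ in (0 : ℝ)..(2 * π), (1 - ‖z‖ ^ 2) / ‖Complex.exp (θ * Complex.I) - z‖ ^ 2 * v θ := by
    have := (Complex.reCLM.intervalIntegral_comp_comm hI).symm
    simp only [Complex.reCLM_apply] at this
    rw [this]
    congr 1
    ext θ
    rw [Complex.re_mul_ofReal, re_ker z]
  rw [← h1]
  have : Complex.I / (2 * π) = ((1 / (2 * π) : ℝ) : ℂ) * Complex.I := by
    push_cast; ring
  rw [this, mul_assoc, Complex.im_ofReal_mul]
  simp

lemma A2_eq {F q : ℂ → ℂ} (hq : DifferentiableOn ℂ q (ball 0 1)) (hq0 : q 0 = 0)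
    (hF : ∀ z ∈ ball (0 : ℂ) 1, F z = z * Complex.exp (q z)) : A2 F = deriv q 0 := by
  have hb : ball (0:ℂ) 1 ∈ 𝓝 (0:ℂ) := ball_mem_nhds _ one_pos
  have han : AnalyticOnNhd ℂ q (ball 0 1) := hq.analyticOnNhd isOpen_ball
  have h1 : ∀ z ∈ ball (0:ℂ) 1, deriv F z = Complex.exp (q z) + z * (Complex.exp (q z) * deriv q z) := by
    intro z hz
    have hev : F =ᶠ[𝓝 z] fun z => z * Complex.exp (q z) := by
      filter_upwards [isOpen_ball.mem_nhds hz] with w hw using hF w hw
    rw [hev.deriv_eq]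
    have hd : HasDerivAt q (deriv q z) z := (han z hz).differentiableAt.hasDerivAt
    have := (hasDerivAt_id z).mul hd.cexp
    have h2 := this.deriv
    simp only [id, one_mul] at h2
    exact h2
  unfold A2
  rw [iteratedDeriv_succ, iteratedDeriv_one]
  have hev : deriv F =ᶠ[𝓝 0] fun z => Complex.exp (q z) + z * (Complex.exp (q z) * deriv q z) := by
    filter_upwards [hb] with w hw using h1 w hw
  rw [hev.deriv_eq]
  have h0 : (0:ℂ) ∈ ball (0:ℂ) 1 := mem_ball_self one_pos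
  have hd : HasDerivAt q (deriv q 0) 0 := (han 0 h0).differentiableAt.hasDerivAt
  have hd2 : HasDerivAt (deriv q) (deriv (deriv q) 0) 0 :=
    (han.deriv 0 h0).differentiableAt.hasDerivAt
  have := hd.cexp.add ((hasDerivAt_id (0:ℂ)).mul (hd.cexp.mul hd2))
  have h2 := this.deriv
  simp only [id, one_mul, zero_mul, add_zero, hq0, Complex.exp_zero, Pi.mul_apply] at h2
  have h3 : (fun z => Complex.exp (q z) + z * (Complex.exp (q z) * deriv q z)) =
      ((fun x => Complex.exp (q x)) + (id * ((fun x => Complex.exp (q x)) * deriv q))) := by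
    ext z; simp
  rw [h3, h2]
  ring

lemma norm_A2 {M : ℝ} {F : ℂ → ℂ} (hF : IsQSStarlike M F) :
    ∃ v, IsQS M v ∧ ‖A2 F‖ = ‖Z v‖ := by
  obtain ⟨v, q, hv, hq, hq0, him, hFq⟩ := hF
  refine ⟨v, hv, ?_⟩
  rw [A2_eq hq hq0 hFq]
  have hS := S_diff hv.1
  have han : AnalyticOnNhd ℂ (fun z => q z - S v z) (ball 0 1) :=
    (hq.sub hS).analyticOnNhd isOpen_ball
  obtain ⟨k, hk⟩ := han.eq_const_of_im_eq_const (c₀ := 0) (by
    intro z hz
    rw [Complex.sub_im, him z hz, S_im hv.1 (mem_ball_zero_iff.mp hz), sub_self]) isOpen_ball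
    ((convex_ball (0:ℂ) 1).isConnected ⟨0, mem_ball_self one_pos⟩)
  have hev : q =ᶠ[𝓝 0] fun z => S v z + k := by
    filter_upwards [ball_mem_nhds (0:ℂ) one_pos] with w hw
    have := hk w hw
    linear_combination this
  rw [hev.deriv_eq, ((deriv_S_zero hv.1).add_const k).deriv, norm_mul, Complex.norm_I, one_mul]

lemma exists_F {M : ℝ} {v : ℝ → ℝ} (hv : IsQS M v) :
    ∃ F, IsQSStarlike M F ∧ ‖Z v‖ = ‖A2 F‖ := by
  refine ⟨fun z => z * Complex.exp (S v z), ⟨v, S v, hv, S_diff hv.1, S_zero hv.2.2.2.1,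
    fun z hz => S_im hv.1 (mem_ball_zero_iff.mp hz), fun z _ => rfl⟩, ?_⟩
  rw [A2_eq (S_diff hv.1) (S_zero hv.2.2.2.1) (fun z _ => rfl), (deriv_S_zero hv.1).deriv,
    norm_mul, Complex.norm_I, one_mul]

theorem c_eq (M : ℝ) : c M = sSup {a : ℝ | ∃ v, IsQS M v ∧ a = ‖Z v‖} := by
  unfold c
  congr 1
  ext a
  constructor
  · rintro ⟨F, hF, rfl⟩
    exact norm_A2 hF
  · rintro ⟨v, hv, rfl⟩
    exact exists_F hv

end Pool.Agent.MP_e5b4ec_an
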