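import Pool.Agent.MP_e5b4ec_an.Fun

open Real MeasureTheory Filter Topology Set

namespace Pool.Agent.MP_e5b4ec_an

/-- periodic extension of `φ - id` from `[-π, π]` -/
noncomputable def perExt (φ : ℝ → ℝ) (x : ℝ) : ℝ :=
  φ (2 * π * Int.fract ((x + π) / (2 * π)) - π) - (2 * π * Int.fract ((x + π) / (2 * π)) - π)

lemma perExt_cont {φ : ℝ → ℝ} (hc : Continuous φ) (h1 : φ π = π) (h2 : φ (-π) = -π) :
    Continuous (perExt φ) := by
  have hg : Continuous (fun s : ℝ => φ (2 * π * s - π) - (2 * π * s - π)) := by fun_prop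
  have := ContinuousOn.comp_fract'' (f := fun s : ℝ => φ (2 * π * s - π) - (2 * π * s - π))
    hg.continuousOn (by
      simp only [mul_zero, zero_sub, mul_one]
      rw [show 2 * π - π = π by ring, h1, h2]; ring)
  exact this.comp (by fun_prop : Continuous fun x : ℝ => (x + π) / (2 * π))

lemma perExt_per (φ : ℝ → ℝ) : Function.Periodic (perExt φ) (2 * π) := by
  intro x
  unfold perExt
  have : (x + 2 * π + π) / (2 * π) = (x + π) / (2 * π) + 1 := by
    have := Real.pi_ne_zero
    field_simp; ring
  rw [this, Int.fract_add_one]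

lemma perExt_eq {φ : ℝ → ℝ} (h1 : φ π = π) (h2 : φ (-π) = -π) {x : ℝ} (ha : -π ≤ x) (hb : x ≤ π) :
    perExt φ x = φ x - x := by
  have hpi := Real.pi_pos
  have main : ∀ y, -π ≤ y → y < π → perExt φ y = φ y - y := by
    intro y ha hb
    unfold perExt
    rw [Int.fract_eq_self.mpr ⟨div_nonneg (by linarith) (by positivity),
      by rw [div_lt_one (by positivity)]; linarith⟩]
    have : 2 * π * ((y + π) / (2 * π)) - π = y := by field_simp; ring
    rw [this]
  rcases hb.lt_or_eq with hb | rfl
  · exact main x ha hb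
  · have := perExt_per φ (-π)
    rw [show -π + 2 * π = π by ring] at this
    rw [this, main (-π) le_rfl (by linarith), h1, h2]; ring

lemma exists_red (a x : ℝ) : ∃ n : ℤ, a < x - n * (2 * π) ∧ x - n * (2 * π) ≤ a + 2 * π := by
  have hp : 0 < 2 * π := by positivity
  refine ⟨toIocDiv hp a x, ?_⟩
  have := sub_toIocDiv_zsmul_mem_Ioc hp a x
  rw [zsmul_eq_mul] at this
  exact this

lemma perExt_odd {φ : ℝ → ℝ} (h1 : φ π = π) (hodd : ∀ x, φ (-x) = -φ x) (x : ℝ) :
    perExt φ (-x) = -perExt φ x := by
  have h2 : φ (-π) = -π := by rw [hodd, h1]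
  obtain ⟨n, hn1, hn2⟩ := exists_red (-π) x
  have e1 := (perExt_per φ).sub_int_mul_eq (x := x) n
  have e2 := (perExt_per φ).int_mul n (-x)
  rw [← e1, ← e2, perExt_eq h1 h2 hn1.le (by linarith),
    perExt_eq h1 h2 (by linarith) (by linarith),
    show -x + n * (2 * π) = -(x - n * (2 * π)) by ring, hodd]
  ring

lemma strictMono_of_per {H : ℝ → ℝ} (hper : ∀ (n : ℤ) x, H (x - n * (2 * π)) = H x - n * (2 * π))
    (h0 : H 0 = 0) (hm : StrictMonoOn H (Icc 0 (2 * π))) : StrictMono H := by
  intro x y hxy
  have hpi := Real.pi_pos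
  have h2 : H (2 * π) = 2 * π := by
    have := hper 1 (2 * π)
    simp only [Int.cast_one, one_mul, sub_self, h0] at this
    linarith
  obtain ⟨n, hn1, hn2⟩ := exists_red 0 x
  obtain ⟨m, hm1, hm2⟩ := exists_red 0 y
  rw [zero_add] at hn2 hm2
  have e1 := hper n x
  have e2 := hper m y
  have hnm : n ≤ m := by
    have : (n:ℝ) * (2 * π) < (m + 1) * (2 * π) := by linarith
    have := lt_of_mul_lt_mul_right this (by positivity)
    have : n < m + 1 := by exact_mod_cast this
    omega
  rcases hnm.eq_or_lt with rfl | hlt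
  · have := hm ⟨hn1.le, hn2⟩ ⟨hm1.le, hm2⟩ (by linarith)
    linarith
  · have a1 : H (x - n * (2 * π)) ≤ 2 * π := by
      have := hm.monotoneOn ⟨hn1.le, hn2⟩ ⟨by positivity, le_rfl⟩ hn2
      rwa [h2] at this
    have a2 : 0 < H (y - m * (2 * π)) := by
      rw [← h0]
      exact hm ⟨le_rfl, by positivity⟩ ⟨hm1.le, hm2⟩ hm1
    have a3 : (n:ℝ) + 1 ≤ m := by exact_mod_cast hlt
    nlinarith

noncomputable def vv (η q : ℝ) : ℝ → ℝ := perExt (fun x => f η q x - f η q (-x))

noncomputable def HH (η q x : ℝ) : ℝ := x + vv η q x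

section
variable {η q : ℝ} (P : Par η q)
include P

lemma phi_pi : (fun x => f η q x - f η q (-x)) π = π := by
  simp only; rw [f_pi P le_rfl, f_zero P (by linarith [Real.pi_pos])]; ring
lemma phi_negpi : (fun x => f η q x - f η q (-x)) (-π) = -π := by
  simp only; rw [neg_neg, f_pi P le_rfl, f_zero P (by linarith [Real.pi_pos])]; ring

lemma vv_cont : Continuous (vv η q) :=
  perExt_cont ((f_cont P).sub ((f_cont P).comp continuous_neg)) (phi_pi P) (phi_negpi P)

omit P in
lemma vv_per : Function.Periodic (vv η q) (2 * π) := perExt_per _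

lemma vv_odd (x : ℝ) : vv η q (-x) = -vv η q x :=
  perExt_odd (phi_pi P) (fun x => by simp) x

lemma HH_odd (x : ℝ) : HH η q (-x) = -HH η q x := by
  unfold HH; rw [vv_odd P]; ring

omit P in
lemma HH_per (n : ℤ) (x : ℝ) : HH η q (x - n * (2 * π)) = HH η q x - n * (2 * π) := by
  unfold HH; rw [vv_per.sub_int_mul_eq]; ring

lemma HH_refl (x : ℝ) : HH η q (2 * π - x) = 2 * π - HH η q x := by
  have := HH_per (η := η) (q := q) 1 (2 * π - x)
  rw [show 2 * π - x - ((1:ℤ):ℝ) * (2 * π) = -x by push_cast; ring, HH_odd P] at this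
  push_cast at this
  linarith

lemma HH_left {x : ℝ} (h0 : 0 ≤ x) (h1 : x ≤ π) : HH η q x = f η q x := by
  unfold HH vv
  rw [perExt_eq (phi_pi P) (phi_negpi P) (by linarith [Real.pi_pos]) h1,
    f_zero P (x := -x) (by linarith)]
  ring

lemma HH_eq {x : ℝ} (h0 : 0 ≤ x) (h1 : x ≤ 2 * π) :
    HH η q x = f η q x - f η q (2 * π - x) + π := by
  rcases le_total x π with h | h
  · rw [HH_left P h0 h, f_pi P (x := 2 * π - x) (by linarith)]; ring
  · have := HH_refl P x
    rw [HH_left P (by linarith) (by linarith)] at this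
    rw [f_pi P h]; linarith

lemma HH_low {x y : ℝ} (h0 : 0 ≤ x) (hxy : x ≤ y) (h1 : y ≤ 2 * π) :
    (1 - q) * η / 6 * (y - x) ≤ HH η q y - HH η q x := by
  have hpi := Real.pi_pos
  have key : ∀ a b, 0 ≤ a → a ≤ b → b ≤ π → (1 - q) * η / 6 * (b - a) ≤ f η q b - f η q a := by
    intro a b ha hab hb
    have := f_slope_low P hpi le_rfl ha hab hb
    rwa [f_pi P le_rfl, div_self hpi.ne', mul_one] at this
  rw [HH_eq P h0 (hxy.trans h1), HH_eq P (h0.trans hxy) h1]
  rcases le_total y π with hy | hy
  · have := key x y h0 hxy hy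
    have := f_mono P (show 2 * π - y ≤ 2 * π - x by linarith)
    linarith
  · rcases le_total x π with hx | hx
    · have a1 := key x π h0 hx le_rfl
      have a2 := key (2 * π - y) π (by linarith) (by linarith) le_rfl
      rw [f_pi P le_rfl] at a1 a2
      rw [f_pi P hy, f_pi P (x := 2 * π - x) (by linarith)]
      linarith
    · have := key (2 * π - y) (2 * π - x) (by linarith) (by linarith) (by linarith)
      have := f_mono P hxy
      linarith

lemma HH_strictMono : StrictMono (HH η q) := by
  refine strictMono_of_per HH_per ?_ ?_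
  · rw [HH_left P le_rfl Real.pi_pos.le, f_zero P le_rfl]
  · intro x hx y hy hxy
    have := HH_low P hx.1 hxy.le hy.2
    have h1 := P.h1
    have h2 : 0 < 1 - q := by linarith [P.h4]
    have h3 : 0 < y - x := by linarith
    have : 0 < (1 - q) * η / 6 * (y - x) := by positivity
    linarith

lemma HH_low_left {r x y : ℝ} (h0 : 0 < r) (hr : r ≤ π) (hx : 0 ≤ x) (hxy : x ≤ y) (hy : y ≤ r) :
    (1 - q) * η / 6 * (f η q r / r) * (y - x) ≤ HH η q y - HH η q x := by
  rw [HH_left P hx (by linarith), HH_left P (by linarith) (by linarith)]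
  exact f_slope_low P h0 hr hx hxy hy

lemma HH_low_right {r x y : ℝ} (h0 : 0 < r) (hr : r ≤ π) (hx : 2 * π - r ≤ x) (hxy : x ≤ y)
    (hy : y ≤ 2 * π) :
    (1 - q) * η / 6 * (f η q r / r) * (y - x) ≤ HH η q y - HH η q x := by
  have := HH_low_left P h0 hr (x := 2 * π - y) (y := 2 * π - x) (by linarith) (by linarith)
    (by linarith)
  rw [HH_refl P, HH_refl P] at this
  have e : 2 * π - x - (2 * π - y) = y - x := by ring
  rw [e] at this
  linarith

lemma HH_up {r x y : ℝ} (h0 : 0 < r) (hr : r ≤ π) (hx : r ≤ x) (hxy : x ≤ y)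
    (hy : y ≤ 2 * π - r) :
    HH η q y - HH η q x ≤ 80 * (1 - q) / η * (f η q r / r) * (y - x) := by
  rw [HH_eq P (by linarith) (by linarith), HH_eq P (by linarith) (by linarith)]
  have a1 := f_slope_up P h0 hr hx hxy
  have a2 := f_slope_up P h0 hr (x := 2 * π - y) (y := 2 * π - x) (by linarith) (by linarith)
  have e : 2 * π - x - (2 * π - y) = y - x := by ring
  rw [e] at a2
  have e2 : 80 * (1 - q) / η * (f η q r / r) * (y - x)
      = 2 * (40 * (1 - q) / η * (f η q r / r) * (y - x)) := by ring
  linarith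

lemma HH_le {x : ℝ} (h0 : 0 ≤ x) (h1 : x ≤ 2 * π) : HH η q x ≤ 2 * f η q x := by
  rcases le_total x π with h | h
  · rw [HH_left P h0 h]; linarith [f_nonneg P x]
  · rw [HH_eq P h0 h1, f_pi P h]; linarith [f_nonneg P (2 * π - x)]

lemma HH_bump {x y : ℝ} (hx : x ≤ 4 * π / 3 - η) (hy : 4 * π / 3 ≤ y) :
    π * (1 - q) * (1 - η) ≤ HH η q y - HH η q x := by
  have hpi := Real.pi_gt_three
  have a1 := (HH_strictMono P).monotone hx
  have a2 := (HH_strictMono P).monotone hy
  have a3 := HH_refl P (2 * π / 3)
  have a4 := HH_refl P (2 * π / 3 + η)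
  rw [show 2 * π - 2 * π / 3 = 4 * π / 3 by ring,
    HH_left P (x := 2 * π / 3) (by linarith) (by linarith)] at a3
  rw [show 2 * π - (2 * π / 3 + η) = 4 * π / 3 - η by ring,
    HH_left P (x := 2 * π / 3 + η) (by linarith [P.h1]) (by linarith [P.h2])] at a4
  linarith [f_bump P]

lemma bump_ge (x : ℝ) : (1 - q) * (1 - 2 * η) * f η q x ≤ π * (1 - q) * (1 - η) := by
  have h1 := f_le_pi P x
  have h2 := f_nonneg P x
  have h3 : 0 < 1 - q := by linarith [P.h4]
  have h4 : (1 - 2 * η) * f η q x ≤ π * (1 - η) := by nlinarith [P.h1, P.h2]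
  nlinarith

lemma HH_gain {b : ℝ} (h0 : 0 ≤ b) (h1 : b ≤ π) :
    (1 - q) * (1 - 2 * η) * f η q (2 * b) ≤ HH η q (2 * b) - HH η q b := by
  have hpi := Real.pi_gt_three
  rcases le_total b (2 * π / 3) with h | h
  · have := f_gain P h0 h
    rw [HH_left P h0 h1, HH_eq P (by linarith) (by linarith)]
    linarith [f_le_pi P (2 * π - 2 * b)]
  · exact (bump_ge P _).trans (HH_bump P (by linarith [P.h2]) (by linarith))

lemma HH_main {M : ℝ} (hη : η ≤ 1 / 4) (hM : (1 - q) * (1 - 2 * η) * M = 2)
    (hM2 : 307200 / η ^ 3 ≤ M) {a t : ℝ} (ha0 : 0 < a) (ha : a ≤ 2 * π) (ht0 : 0 < t)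
    (ht : t ≤ π) : HH η q a - HH η q (a - t) ≤ M * (HH η q (a + t) - HH η q a) := by
  have hpi := Real.pi_gt_three
  have hη0 := P.h1
  have hq : 0 < 1 - q := by linarith [P.h4]
  have hmono := (HH_strictMono P).monotone
  have hM3 : 1920 / η ^ 2 ≤ M := by
    refine le_trans ?_ hM2
    rw [div_le_div_iff₀ (by positivity) (by positivity)]
    have : 0 < η ^ 2 := by positivity
    nlinarith
  have hM8 : 8 ≤ M := by
    refine le_trans ?_ hM3
    rw [le_div_iff₀ (by positivity)]
    nlinarith
  have hH0 : HH η q 0 = 0 := by rw [HH_left P le_rfl (by linarith), f_zero P le_rfl]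
  have hH2 : HH η q (2 * π) = 2 * π := by
    have := HH_refl P 0
    rwa [sub_zero, hH0, sub_zero] at this
  rcases le_or_gt (2 * π) (a + t) with hA | hA
  · -- J contains 2π
    have e1 := HH_per (η := η) (q := q) 1 (a + t)
    push_cast at e1
    rw [one_mul, HH_left P (by linarith) (by linarith)] at e1
    have e2 := HH_refl P a
    rw [HH_left P (by linarith) (by linarith)] at e2
    have e3 := HH_refl P (a - t)
    have b1 : HH η q (2 * π - (a - t)) ≤ HH η q (2 * t) := hmono (by linarith)
    have b2 := HH_le P (x := 2 * t) (by linarith) (by linarith)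
    have b3 := f_double P t
    have b4 := f_double P (t / 2)
    rw [show 2 * (t / 2) = t by ring] at b4
    have b5 : f η q (t / 2) ≤ f η q (a + t - 2 * π) + f η q (2 * π - a) := by
      rcases le_total (t / 2) (2 * π - a) with h | h
      · linarith [f_mono P h, f_nonneg P (a + t - 2 * π)]
      · linarith [f_mono P (show t / 2 ≤ a + t - 2 * π by linarith), f_nonneg P (2 * π - a)]
    have b6 := f_nonneg P (2 * π - a)
    have b7 := f_nonneg P (t / 2)
    have b8 : f η q (t / 2) ≤ HH η q (a + t) - HH η q a := by linarith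
    nlinarith
  rcases le_or_gt a t with hB | hB
  · -- I contains 0
    have e1 := HH_odd P (t - a)
    rw [show -(t - a) = a - t by ring, HH_left P (x := t - a) (by linarith) (by linarith)] at e1
    have e2 := HH_left P ha0.le (by linarith)
    have b1 := HH_gain P (b := (a + t) / 2) (by linarith) (by linarith)
    rw [show 2 * ((a + t) / 2) = a + t by ring] at b1
    have b2 : HH η q a ≤ HH η q ((a + t) / 2) := hmono (by linarith)
    have b3 := f_mono P (show a ≤ a + t by linarith)
    have b4 := f_mono P (show t - a ≤ a + t by linarith)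
    have b5 : (1 - q) * (1 - 2 * η) * f η q (a + t) ≤ HH η q (a + t) - HH η q a := by linarith
    have b6 := mul_le_mul_of_nonneg_left b5 (show 0 ≤ M by linarith)
    have e3 : M * ((1 - q) * (1 - 2 * η) * f η q (a + t)) = 2 * f η q (a + t) := by
      linear_combination f η q (a + t) * hM
    linarith
  rcases le_or_gt π a with hC | hC
  · rcases le_or_gt ((2 * π - a) / 4) (a - t) with hD | hD
    · have b1 := HH_low_right P (r := 2 * π - a) (x := a) (y := a + t) (by linarith) (by linarith)
        (by linarith) (by linarith) hA.le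
      have b2 := HH_up P (r := (2 * π - a) / 4) (x := a - t) (y := a) (by linarith) (by linarith)
        hD (by linarith) (by linarith)
      have hr : 0 < 2 * π - a := by linarith
      have b3 : f η q ((2 * π - a) / 4) / ((2 * π - a) / 4) ≤ 4 * (f η q (2 * π - a) / (2 * π - a)) := by
        have := f_mono P (show (2 * π - a) / 4 ≤ 2 * π - a by linarith)
        rw [div_le_iff₀ (by linarith)]
        have e : 4 * (f η q (2 * π - a) / (2 * π - a)) * ((2 * π - a) / 4) = f η q (2 * π - a) := by
          field_simp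
        linarith
      set ψ := f η q (2 * π - a) / (2 * π - a) with hψ
      have hψ0 : 0 ≤ ψ := div_nonneg (f_nonneg P _) hr.le
      rw [show a + t - a = t by ring] at b1
      rw [show a - (a - t) = t by ring] at b2
      have b4 : 80 * (1 - q) / η * (f η q ((2 * π - a) / 4) / ((2 * π - a) / 4)) * t
          ≤ 80 * (1 - q) / η * (4 * ψ) * t := by gcongr
      have b5 : 80 * (1 - q) / η * (4 * ψ) * t = 1920 / η ^ 2 * ((1 - q) * η / 6 * ψ * t) := by
        field_simp; ring
      have b6 : 1920 / η ^ 2 * ((1 - q) * η / 6 * ψ * t) ≤ M * (HH η q (a + t) - HH η q a) :=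
        mul_le_mul hM3 b1 (by positivity) (by linarith)
      linarith
    · have b1 := HH_bump P (x := a) (y := a + t) (by linarith) (by linarith)
      have b2 : HH η q a ≤ 2 * π := hH2 ▸ hmono ha
      have b3 : 0 ≤ HH η q (a - t) := hH0 ▸ hmono (by linarith)
      have b4 := bump_ge P π
      rw [f_pi P le_rfl] at b4
      have b6 := mul_le_mul_of_nonneg_left (b4.trans b1) (show 0 ≤ M by linarith)
      have e3 : M * ((1 - q) * (1 - 2 * η) * π) = 2 * π := by linear_combination π * hM
      linarith
  · rcases le_or_gt (η / 320 * a) (a - t) with hD | hD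
    · have b1 : (1 - q) * η / 6 * (f η q a / (2 * a)) * t ≤ HH η q (a + t) - HH η q a := by
        rcases le_total (a + t) π with h | h
        · have := HH_low_left P (r := a + t) (x := a) (y := a + t) (by linarith) h ha0.le
            (by linarith) le_rfl
          rw [show a + t - a = t by ring] at this
          refine le_trans ?_ this
          have h2 : f η q a / (2 * a) ≤ f η q (a + t) / (a + t) :=
            div_le_div₀ (f_nonneg P _) (f_mono P (by linarith)) (by linarith) (by linarith)
          gcongr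
        · have := HH_low P (x := a) (y := a + t) ha0.le (by linarith) hA.le
          rw [show a + t - a = t by ring] at this
          refine le_trans ?_ this
          have h2 : f η q a / (2 * a) ≤ 1 := by
            rw [div_le_one (by linarith)]; linarith [f_le_pi P a]
          have : (1 - q) * η / 6 * (f η q a / (2 * a)) * t ≤ (1 - q) * η / 6 * 1 * t := by gcongr
          linarith
      have hs : η / 320 * a ≤ a := by nlinarith
      have b2 := HH_up P (r := η / 320 * a) (x := a - t) (y := a) (by positivity) (by linarith)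
        hD (by linarith) (by linarith)
      rw [show a - (a - t) = t by ring] at b2
      have b3 := f_mono P hs
      have b4 : 80 * (1 - q) / η * (f η q (η / 320 * a) / (η / 320 * a)) * t
          ≤ 80 * (1 - q) / η * (f η q a / (η / 320 * a)) * t := by gcongr
      have b5 : 80 * (1 - q) / η * (f η q a / (η / 320 * a)) * t
          = 307200 / η ^ 3 * ((1 - q) * η / 6 * (f η q a / (2 * a)) * t) := by
        field_simp; ring
      have := f_nonneg P a
      have b6 : 307200 / η ^ 3 * ((1 - q) * η / 6 * (f η q a / (2 * a)) * t)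
          ≤ M * (HH η q (a + t) - HH η q a) :=
        mul_le_mul hM2 b1 (by positivity) (by linarith)
      linarith
    · set a' := min a (2 * π / 3) with ha'
      have ha1 : a' ≤ a := min_le_left _ _
      have ha2 : a' ≤ 2 * π / 3 := min_le_right _ _
      have ha3 : 0 < a' := lt_min ha0 (by linarith)
      have b1 : (1 - q) * (1 - 2 * η) * f η q a ≤ HH η q (2 * a') - HH η q a := by
        rcases le_total a (2 * π / 3) with h | h
        · rw [ha', min_eq_left h]
          refine le_trans ?_ (HH_gain P ha0.le hC.le)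
          have := f_mono P (show a ≤ 2 * a by linarith)
          have h3 : 0 ≤ (1 - q) * (1 - 2 * η) := mul_nonneg hq.le (by linarith)
          gcongr
        · rw [ha', min_eq_right h]
          exact (bump_ge P _).trans (HH_bump P (by linarith) (by linarith))
      have hs : η / 320 * a' ≤ a' := by nlinarith
      have b2 := HH_up P (r := a') (x := 2 * a' - η / 320 * a') (y := 2 * a') ha3 (by linarith)
        (by linarith) (by nlinarith) (by linarith)
      have e1 : 80 * (1 - q) / η * (f η q a' / a') * (2 * a' - (2 * a' - η / 320 * a'))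
          = (1 - q) / 4 * f η q a' := by field_simp; ring
      have b3 : HH η q (2 * a' - η / 320 * a') ≤ HH η q (a + t) := hmono (by nlinarith)
      have b4 := f_mono P ha1
      have b5 := f_nonneg P a
      have b6 : (1 - q) / 4 * f η q a' ≤ (1 - q) * (1 - 2 * η) / 2 * f η q a := by
        have : (1 - q) / 4 ≤ (1 - q) * (1 - 2 * η) / 2 := by nlinarith
        exact mul_le_mul this b4 (f_nonneg P _) (by nlinarith)
      have b7 : (1 - q) * (1 - 2 * η) / 2 * f η q a ≤ HH η q (a + t) - HH η q a := by linarith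
      have b8 := mul_le_mul_of_nonneg_left b7 (show 0 ≤ M by linarith)
      have e3 : M * ((1 - q) * (1 - 2 * η) / 2 * f η q a) = f η q a := by
        have : M * ((1 - q) * (1 - 2 * η) / 2 * f η q a)
            = ((1 - q) * (1 - 2 * η) * M) / 2 * f η q a := by ring
        rw [this, hM]; ring
      have b9 : 0 ≤ HH η q (a - t) := hH0 ▸ hmono (by linarith)
      rw [HH_left P ha0.le hC.le] at *
      linarith

lemma HH_main' {M : ℝ} (hη : η ≤ 1 / 4) (hM : (1 - q) * (1 - 2 * η) * M = 2)
    (hM2 : 307200 / η ^ 3 ≤ M) (a : ℝ) {t : ℝ} (ht0 : 0 < t)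
    (ht : t ≤ π) : HH η q a - HH η q (a - t) ≤ M * (HH η q (a + t) - HH η q a) := by
  obtain ⟨n, hn1, hn2⟩ := exists_red 0 a
  have := HH_main P hη hM hM2 hn1 (by linarith) ht0 ht
  rw [show a - n * (2 * π) - t = (a - t) - n * (2 * π) by ring,
    show a - n * (2 * π) + t = (a + t) - n * (2 * π) by ring, HH_per, HH_per, HH_per] at this
  convert this using 1 <;> ring

lemma vv_mean : (∫ θ in (0 : ℝ)..(2 * π), vv η q θ) = 0 := by
  have h1 := (vv_per (η := η) (q := q)).intervalIntegral_add_eq 0 (-π)
  rw [zero_add, show -π + 2 * π = π by ring] at h1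
  rw [h1]
  have h2 := intervalIntegral.integral_comp_neg (a := -π) (b := π) (vv η q)
  simp_rw [vv_odd P] at h2
  rw [intervalIntegral.integral_neg, neg_neg] at h2
  linarith

theorem vv_isQS {M : ℝ} (hη : η ≤ 1 / 4) (hM : (1 - q) * (1 - 2 * η) * M = 2)
    (hM2 : 307200 / η ^ 3 ≤ M) : IsQS M (vv η q) := by
  refine ⟨vv_cont P, vv_per, HH_strictMono P, vv_mean P, fun x t ht0 ht => ⟨?_, ?_⟩⟩
  · have := HH_main' P hη hM hM2 (-x) ht0 ht
    rw [show -x - t = -(x + t) by ring, show -x + t = -(x - t) by ring, HH_odd P, HH_odd P,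
      HH_odd P] at this
    unfold HH at this
    convert this using 1 <;> ring
  · exact HH_main' P hη hM hM2 x ht0 ht

end

end Pool.Agent.MP_e5b4ec_an
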