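import Mathlib

open Real

namespace Pool.Agent.MP_e5b4ec_an

/-- `v` is the normalised angular displacement of an `M`-quasisymmetric orientation preserving
homeomorphism `h (e^{iθ}) = e^{i(θ + v θ)}` of the unit circle. -/
def IsQS (M : ℝ) (v : ℝ → ℝ) : Prop :=
  Continuous v ∧ Function.Periodic v (2 * π) ∧ StrictMono (fun θ : ℝ => θ + v θ) ∧
    (∫ θ in (0 : ℝ)..(2 * π), v θ) = 0 ∧
    ∀ x t : ℝ, 0 < t → t ≤ π →
      (x + t + v (x + t)) - (x + v x) ≤ M * ((x + v x) - (x - t + v (x - t))) ∧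
      (x + v x) - (x - t + v (x - t)) ≤ M * ((x + t + v (x + t)) - (x + v x))

/-- The harmonic extension (Poisson integral) of the boundary function `e^{iθ} ↦ v θ`. -/
noncomputable def poisson (v : ℝ → ℝ) (z : ℂ) : ℝ :=
  (1 / (2 * π)) * ∫ θ in (0 : ℝ)..(2 * π),
    (1 - ‖z‖ ^ 2) / ‖Complex.exp (θ * Complex.I) - z‖ ^ 2 * v θ

/-- `M`-quasisymmetric starlike functions. -/
def IsQSStarlike (M : ℝ) (F : ℂ → ℂ) : Prop :=
  ∃ (v : ℝ → ℝ) (q : ℂ → ℂ), IsQS M v ∧ DifferentiableOn ℂ q (Metric.ball 0 1) ∧ q 0 = 0 ∧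
    (∀ z ∈ Metric.ball (0 : ℂ) 1, (q z).im = poisson v z) ∧
    ∀ z ∈ Metric.ball (0 : ℂ) 1, F z = z * Complex.exp (q z)

/-- The second Taylor coefficient at `0`. -/
noncomputable def A2 (F : ℂ → ℂ) : ℂ := iteratedDeriv 2 F 0 / 2

/-- The sharp bound `c(M)`. -/
noncomputable def c (M : ℝ) : ℝ := sSup {a : ℝ | ∃ F : ℂ → ℂ, IsQSStarlike M F ∧ a = ‖A2 F‖}

end Pool.Agent.MP_e5b4ec_an
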