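import Pool.Agent.MP_e5b4ec_an.Upper

open Real MeasureTheory Filter Topology Set

namespace Pool.Agent.MP_e5b4ec_an

/-- ramp from 0 to 1 on `[2π/3, 2π/3+η]` -/
noncomputable def R (η x : ℝ) : ℝ := max 0 (min 1 ((x - 2 * π / 3) / η))

/-- background -/
noncomputable def K (x : ℝ) : ℝ := max 0 (min x π) / π

noncomputable def B (η x : ℝ) : ℝ := (1 - η) * R η x + η * K x

section
variable {η : ℝ}

lemma R_nonneg (x : ℝ) : 0 ≤ R η x := le_max_left _ _
lemma R_le_one (x : ℝ) : R η x ≤ 1 := max_le zero_le_one (min_le_left _ _)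
lemma R_cont : Continuous (R η) := by unfold R; fun_prop
lemma R_mono (hη : 0 < η) : Monotone (R η) := by
  intro x y h; unfold R; gcongr
lemma R_zero (hη : 0 < η) {x : ℝ} (hx : x ≤ 2 * π / 3) : R η x = 0 := by
  unfold R
  refine max_eq_left ((min_le_right _ _).trans ?_)
  exact div_nonpos_of_nonpos_of_nonneg (by linarith) hη.le
lemma R_one (hη : 0 < η) {x : ℝ} (hx : 2 * π / 3 + η ≤ x) : R η x = 1 := by
  unfold R
  rw [min_eq_left (by rw [le_div_iff₀ hη]; linarith), max_eq_right zero_le_one]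
lemma clamp_lip (a b x y : ℝ) (h : x ≤ y) : max a (min b y) - max a (min b x) ≤ y - x := by
  simp only [max_def, min_def]
  split_ifs <;> linarith
lemma R_lip (hη : 0 < η) {x y : ℝ} (h : x ≤ y) : R η y - R η x ≤ (y - x) / η := by
  have := clamp_lip 0 1 ((x - 2 * π / 3) / η) ((y - 2 * π / 3) / η) (by gcongr)
  unfold R
  refine this.trans (le_of_eq ?_)
  ring

lemma K_nonneg (x : ℝ) : 0 ≤ K x := div_nonneg (le_max_left _ _) Real.pi_pos.le
lemma K_le_one (x : ℝ) : K x ≤ 1 := by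
  unfold K
  rw [div_le_one Real.pi_pos]
  exact max_le Real.pi_pos.le (min_le_right _ _)
lemma K_cont : Continuous K := by unfold K; fun_prop
lemma K_mono : Monotone K := by
  intro x y h; unfold K; have := Real.pi_pos; gcongr
lemma K_zero {x : ℝ} (hx : x ≤ 0) : K x = 0 := by
  unfold K; rw [max_eq_left ((min_le_left _ _).trans hx), zero_div]
lemma K_one {x : ℝ} (hx : π ≤ x) : K x = 1 := by
  unfold K; rw [min_eq_right hx, max_eq_right Real.pi_pos.le, div_self Real.pi_ne_zero]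
lemma K_mid {x : ℝ} (h0 : 0 ≤ x) (hx : x ≤ π) : K x = x / π := by
  unfold K; rw [min_eq_left hx, max_eq_right h0]
lemma K_lip {x y : ℝ} (h : x ≤ y) : K y - K x ≤ y - x := by
  have := clamp_lip 0 π x y h
  rw [min_comm π y, min_comm π x] at this
  unfold K
  rw [← sub_div, div_le_iff₀ Real.pi_pos]
  nlinarith [Real.pi_gt_three]

lemma B_nonneg (hη : 0 < η) (hη1 : η ≤ 1 / 2) (x : ℝ) : 0 ≤ B η x := by
  unfold B
  have := R_nonneg (η := η) x
  have := K_nonneg x
  have : 0 ≤ 1 - η := by linarith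
  positivity
lemma B_le_one (hη : 0 < η) (hη1 : η ≤ 1 / 2) (x : ℝ) : B η x ≤ 1 := by
  unfold B
  nlinarith [R_le_one (η := η) x, K_le_one x]
lemma B_cont : Continuous (B η) := by
  unfold B
  exact (continuous_const.mul R_cont).add (continuous_const.mul K_cont)
lemma B_zero (hη : 0 < η) {x : ℝ} (hx : x ≤ 0) : B η x = 0 := by
  unfold B; rw [R_zero hη (by linarith [Real.pi_pos]), K_zero hx]; ring
lemma B_one (hη : 0 < η) (hη1 : η ≤ 1 / 2) {x : ℝ} (hx : π ≤ x) : B η x = 1 := by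
  unfold B; rw [R_one hη (by linarith [Real.pi_gt_three]), K_one hx]; ring
lemma B_mono (hη : 0 < η) (hη1 : η ≤ 1 / 2) : Monotone (B η) := by
  intro x y h
  unfold B
  have h1 := R_mono hη h
  have h2 := K_mono h
  have : 0 ≤ 1 - η := by linarith
  gcongr
lemma B_low (hη : 0 < η) (hη1 : η ≤ 1 / 2) {x y : ℝ} (h0 : 0 ≤ x) (h : x ≤ y) (hy : y ≤ π) :
    η * (y - x) / π ≤ B η y - B η x := by
  unfold B
  rw [K_mid h0 (h.trans hy), K_mid (h0.trans h) hy]
  have h1 := R_mono hη h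
  have : 0 ≤ (1 - η) * (R η y - R η x) := mul_nonneg (by linarith) (by linarith)
  have e : η * (y - x) / π = η * (y / π) - η * (x / π) := by ring
  linarith
lemma B_lip (hη : 0 < η) (hη1 : η ≤ 1 / 2) {x y : ℝ} (h : x ≤ y) :
    B η y - B η x ≤ 2 / η * (y - x) := by
  unfold B
  have h1 := R_lip hη h
  have h2 := K_lip h
  have h3 := R_mono hη h
  have h4 : y - x ≤ (y - x) / η := by
    rw [le_div_iff₀ hη]; nlinarith
  have e : 2 / η * (y - x) = 2 * ((y - x) / η) := by ring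
  nlinarith
lemma B_small (hη : 0 < η) {x : ℝ} (h0 : 0 ≤ x) (hx : x ≤ 2 * π / 3) : B η x = η * x / π := by
  unfold B
  rw [R_zero hη hx, K_mid h0 (by linarith [Real.pi_pos])]; ring
lemma B_le_self (hη : 0 < η) (hη1 : η ≤ 1 / 2) {x : ℝ} (h0 : 0 ≤ x) : B η x ≤ x := by
  rcases le_total x (2 * π / 3) with h | h
  · rw [B_small hη h0 h, div_le_iff₀ Real.pi_pos]
    nlinarith [Real.pi_gt_three]
  · linarith [B_le_one hη hη1 x, Real.pi_gt_three]
lemma B_bump (hη : 0 < η) :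
    1 - η ≤ B η (2 * π / 3 + η) - B η (2 * π / 3) := by
  unfold B
  rw [R_one hη le_rfl, R_zero hη le_rfl]
  have := K_mono (show 2 * π / 3 ≤ 2 * π / 3 + η by linarith)
  nlinarith

end

/-- the self-similar distribution function -/
noncomputable def f (η q x : ℝ) : ℝ := ∑' k : ℕ, π * (1 - q) * q ^ k * B η (2 ^ k * x)

structure Par (η q : ℝ) : Prop where
  h1 : 0 < η
  h2 : η ≤ 1 / 2
  h3 : 3 / 4 ≤ q
  h4 : q < 1

section
variable {η q : ℝ} (P : Par η q)
include P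

lemma Par.q0 : 0 < q := by linarith [P.h3]
lemma Par.c0 : 0 < π * (1 - q) := mul_pos Real.pi_pos (by linarith [P.h4])

lemma term_bound (k : ℕ) (x : ℝ) :
    ‖π * (1 - q) * q ^ k * B η (2 ^ k * x)‖ ≤ π * (1 - q) * q ^ k := by
  have h1 := B_nonneg P.h1 P.h2 (2 ^ k * x)
  have h2 := B_le_one P.h1 P.h2 (2 ^ k * x)
  have h3 : 0 < π * (1 - q) * q ^ k := mul_pos P.c0 (pow_pos P.q0 k)
  rw [Real.norm_eq_abs, abs_of_nonneg (by positivity)]
  nlinarith

lemma geo_summ : Summable (fun k : ℕ => π * (1 - q) * q ^ k) :=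
  (summable_geometric_of_lt_one P.q0.le P.h4).mul_left _

lemma f_summ (x : ℝ) : Summable (fun k : ℕ => π * (1 - q) * q ^ k * B η (2 ^ k * x)) :=
  Summable.of_norm_bounded (geo_summ P) (fun k => term_bound P k x)

lemma f_cont : Continuous (f η q) := by
  unfold f
  refine continuous_tsum (fun k => ?_) (geo_summ P) (fun k x => term_bound P k x)
  exact continuous_const.mul (B_cont.comp (by fun_prop))

lemma f_mono : Monotone (f η q) := by
  intro x y h
  refine (f_summ P x).tsum_le_tsum (fun k => ?_) (f_summ P y)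
  have h3 : 0 < π * (1 - q) * q ^ k := mul_pos P.c0 (pow_pos P.q0 k)
  exact mul_le_mul_of_nonneg_left (B_mono P.h1 P.h2 (by gcongr)) h3.le

lemma f_zero {x : ℝ} (hx : x ≤ 0) : f η q x = 0 := by
  unfold f
  have : ∀ k : ℕ, B η (2 ^ k * x) = 0 := fun k =>
    B_zero P.h1 (mul_nonpos_of_nonneg_of_nonpos (by positivity) hx)
  simp [this]

lemma f_pi {x : ℝ} (hx : π ≤ x) : f η q x = π := by
  unfold f
  have : ∀ k : ℕ, B η (2 ^ k * x) = 1 := fun k => B_one P.h1 P.h2 (by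
    have : (1:ℝ) ≤ 2 ^ k := one_le_pow₀ (by norm_num)
    nlinarith [Real.pi_pos])
  simp only [this, mul_one]
  rw [tsum_mul_left, tsum_geometric_of_lt_one P.q0.le P.h4]
  have : 1 - q ≠ 0 := by linarith [P.h4]
  field_simp

lemma f_nonneg (x : ℝ) : 0 ≤ f η q x := by
  have := f_mono P (min_le_left x 0)
  rwa [f_zero P (min_le_right x 0)] at this

lemma f_le_pi (x : ℝ) : f η q x ≤ π := by
  have := f_mono P (le_max_left x π)
  rwa [f_pi P (le_max_right x π)] at this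

lemma f_eq (x : ℝ) : f η q x = π * (1 - q) * B η x + q * f η q (2 * x) := by
  unfold f
  rw [(f_summ P x).tsum_eq_zero_add, ← tsum_mul_left]
  congr 1
  · simp
  · congr 1
    ext k
    rw [show (2:ℝ) ^ (k + 1) * x = 2 ^ k * (2 * x) by ring]
    ring

lemma f_iter (n : ℕ) (x : ℝ) : f η q x =
    ∑ j ∈ Finset.range n, π * (1 - q) * q ^ j * B η (2 ^ j * x) + q ^ n * f η q (2 ^ n * x) := by
  induction n with
  | zero => simp
  | succ n ih =>
    rw [Finset.sum_range_succ, ih, f_eq P (2 ^ n * x),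
      show 2 * (2 ^ n * x) = (2:ℝ) ^ (n + 1) * x by ring]
    ring

lemma f_ge_q (x : ℝ) : q * f η q (2 * x) ≤ f η q x := by
  have := f_eq P x
  have h1 := mul_nonneg P.c0.le (B_nonneg P.h1 P.h2 x)
  linarith

lemma f_double (x : ℝ) : f η q (2 * x) ≤ 2 * f η q x := by
  have := f_ge_q P x
  have h2 := f_nonneg P (2 * x)
  nlinarith [P.h3]

omit P in
lemma exists_scale {r : ℝ} (h0 : 0 < r) (hr : r ≤ π) : ∃ k : ℕ, π < 2 ^ (k + 1) * r ∧ 2 ^ k * r ≤ π := by
  have h1 : 1 ≤ π / r := by rw [le_div_iff₀ h0]; linarith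
  obtain ⟨k, hk1, hk2⟩ := exists_nat_pow_near h1 (by norm_num : (1:ℝ) < 2)
  refine ⟨k, ?_, ?_⟩
  · rwa [div_lt_iff₀ h0] at hk2
  · rwa [le_div_iff₀ h0] at hk1

lemma f_scale_low {r : ℝ} {k : ℕ} (hk : π < 2 ^ (k + 1) * r) : π * q ^ (k + 1) ≤ f η q r := by
  rw [f_iter P (k + 1) r, f_pi P hk.le]
  have : 0 ≤ ∑ j ∈ Finset.range (k + 1), π * (1 - q) * q ^ j * B η (2 ^ j * r) :=
    Finset.sum_nonneg (fun j _ => mul_nonneg (mul_pos P.c0 (pow_pos P.q0 j)).le
      (B_nonneg P.h1 P.h2 _))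
  linarith

lemma geo2 (n : ℕ) : ∑ j ∈ Finset.range n, (2 * q) ^ j ≤ 2 * (2 * q) ^ n := by
  induction n with
  | zero => simp
  | succ n ih =>
    rw [Finset.sum_range_succ, pow_succ]
    have : 0 < (2 * q) ^ n := pow_pos (by linarith [P.h3]) n
    nlinarith [P.h3]

lemma f_scale_up {r : ℝ} {k : ℕ} (h0 : 0 ≤ r) (hk : 2 ^ k * r ≤ π) : f η q r ≤ 3 * π * q ^ k := by
  rw [f_iter P k r]
  have h1 : ∑ j ∈ Finset.range k, π * (1 - q) * q ^ j * B η (2 ^ j * r) ≤
      ∑ j ∈ Finset.range k, π * (1 - q) * r * (2 * q) ^ j := by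
    refine Finset.sum_le_sum (fun j _ => ?_)
    have h3 : 0 < π * (1 - q) * q ^ j := mul_pos P.c0 (pow_pos P.q0 j)
    have := mul_le_mul_of_nonneg_left (B_le_self P.h1 P.h2 (x := 2 ^ j * r) (by positivity)) h3.le
    rw [mul_pow]
    linarith
  rw [← Finset.mul_sum] at h1
  have h2 := mul_le_mul_of_nonneg_left (geo2 P k) (mul_nonneg P.c0.le h0)
  have h3 : 0 < q ^ k := pow_pos P.q0 k
  have h4 : q ^ k * f η q (2 ^ k * r) ≤ q ^ k * π := mul_le_mul_of_nonneg_left (f_le_pi P _) h3.le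
  have h5 : π * (1 - q) * r * (2 * (2 * q) ^ k) = 2 * (π * (1 - q)) * q ^ k * (2 ^ k * r) := by
    rw [mul_pow]; ring
  have h6 : 2 * (π * (1 - q)) * q ^ k * (2 ^ k * r) ≤ 2 * (π * (1 - q)) * q ^ k * π :=
    mul_le_mul_of_nonneg_left hk (by have := P.c0; positivity)
  have h7 : π * (1 - q) ≤ 1 := by nlinarith [Real.pi_lt_four, P.h3, P.h4, Real.pi_pos]
  have h8 : 0 < q ^ k * π := mul_pos h3 Real.pi_pos
  nlinarith

lemma f_half {r : ℝ} (h0 : 0 ≤ r) (hr : r ≤ π) : r / 3 ≤ f η q r := by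
  rcases h0.eq_or_lt with rfl | h0
  · simpa using f_nonneg P 0
  obtain ⟨k, hk1, hk2⟩ := exists_scale h0 hr
  have h1 := f_scale_low P hk1
  have h2 : (1:ℝ) ≤ (2 * q) ^ k := one_le_pow₀ (by linarith [P.h3])
  rw [mul_pow] at h2
  have h3 : 0 < q ^ k := pow_pos P.q0 k
  have h4 : r ≤ π * q ^ k := by nlinarith
  rw [pow_succ] at h1
  nlinarith [P.h3]

/-- lower slope -/
lemma f_slope_low {r x y : ℝ} (h0 : 0 < r) (hr : r ≤ π) (hx : 0 ≤ x) (hxy : x ≤ y) (hy : y ≤ r) :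
    (1 - q) * η / 6 * (f η q r / r) * (y - x) ≤ f η q y - f η q x := by
  obtain ⟨k, hk1, hk2⟩ := exists_scale h0 hr
  have h1 := f_scale_up P h0.le hk2
  have h3 : 0 < q ^ k := pow_pos P.q0 k
  have hpi := Real.pi_pos
  have key : (1 - q) * η * (q ^ k * 2 ^ k) * (y - x) ≤ f η q y - f η q x := by
    rw [f_iter P (k + 1) y, f_iter P (k + 1) x, Finset.sum_range_succ, Finset.sum_range_succ]
    have a1 : ∑ j ∈ Finset.range k, π * (1 - q) * q ^ j * B η (2 ^ j * x) ≤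
        ∑ j ∈ Finset.range k, π * (1 - q) * q ^ j * B η (2 ^ j * y) :=
      Finset.sum_le_sum (fun j _ => mul_le_mul_of_nonneg_left (B_mono P.h1 P.h2 (by gcongr))
        (mul_pos P.c0 (pow_pos P.q0 j)).le)
    have a2 : q ^ (k + 1) * f η q (2 ^ (k + 1) * x) ≤ q ^ (k + 1) * f η q (2 ^ (k + 1) * y) :=
      mul_le_mul_of_nonneg_left (f_mono P (by gcongr)) (pow_pos P.q0 _).le
    have a3 := B_low P.h1 P.h2 (x := 2 ^ k * x) (y := 2 ^ k * y) (by positivity) (by gcongr)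
      (le_trans (by gcongr) hk2)
    have a4 := mul_le_mul_of_nonneg_left a3 (mul_pos P.c0 h3).le
    have e : π * (1 - q) * q ^ k * (η * (2 ^ k * y - 2 ^ k * x) / π)
        = (1 - q) * η * (q ^ k * 2 ^ k) * (y - x) := by field_simp
    linarith
  refine le_trans ?_ key
  have b1 : f η q r / r ≤ 6 * (q ^ k * 2 ^ k) := by
    rw [div_le_iff₀ h0]
    rw [pow_succ] at hk1
    nlinarith
  have b2 : 0 ≤ (1 - q) * η / 6 * (y - x) := by
    have := P.h1; have : 0 < 1 - q := by linarith [P.h4]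
    have : 0 ≤ y - x := by linarith
    positivity
  nlinarith

/-- upper slope -/
lemma f_slope_up {r x y : ℝ} (h0 : 0 < r) (hr : r ≤ π) (hx : r ≤ x) (hxy : x ≤ y) :
    f η q y - f η q x ≤ 40 * (1 - q) / η * (f η q r / r) * (y - x) := by
  obtain ⟨k, hk1, hk2⟩ := exists_scale h0 hr
  have h1 := f_scale_low P hk1
  have h3 : 0 < q ^ k := pow_pos P.q0 k
  have hpi := Real.pi_pos
  have hη := P.h1
  have hq1 : 0 < 1 - q := by linarith [P.h4]
  have hd : 0 ≤ y - x := by linarith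
  have key : f η q y - f η q x ≤ π * (1 - q) * (2 / η) * (y - x) * (2 * (2 * q) ^ (k + 1)) := by
    rw [f_iter P (k + 1) y, f_iter P (k + 1) x,
      f_pi P (x := 2 ^ (k + 1) * x) (hk1.le.trans (by gcongr)),
      f_pi P (x := 2 ^ (k + 1) * y) (hk1.le.trans (by gcongr; linarith)), add_sub_add_right_eq_sub,
      ← Finset.sum_sub_distrib]
    refine le_trans ?_ (mul_le_mul_of_nonneg_left (geo2 P (k + 1)) (by positivity))
    rw [Finset.mul_sum]
    refine Finset.sum_le_sum (fun j _ => ?_)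
    have a := mul_le_mul_of_nonneg_left
      (B_lip P.h1 P.h2 (x := 2 ^ j * x) (y := 2 ^ j * y) (by gcongr)) (mul_pos P.c0 (pow_pos P.q0 j)).le
    have e : π * (1 - q) * q ^ j * (2 / η * (2 ^ j * y - 2 ^ j * x))
        = π * (1 - q) * (2 / η) * (y - x) * (2 * q) ^ j := by rw [mul_pow]; ring
    linarith
  refine key.trans ?_
  have b1 : (2 * q) ^ (k + 1) ≤ 2 * (f η q r / r) := by
    rw [← mul_div_assoc, le_div_iff₀ h0, mul_pow]
    have : 0 < q ^ (k + 1) := pow_pos P.q0 _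
    rw [pow_succ 2]
    nlinarith
  have b2 : 0 ≤ (1 - q) / η * (y - x) := by positivity
  have b3 : 0 ≤ f η q r / r := div_nonneg (f_nonneg P r) h0.le
  have e1 : π * (1 - q) * (2 / η) * (y - x) * (2 * (2 * q) ^ (k + 1))
      = (1 - q) / η * (y - x) * (4 * π * (2 * q) ^ (k + 1)) := by ring
  have e2 : 40 * (1 - q) / η * (f η q r / r) * (y - x)
      = (1 - q) / η * (y - x) * (40 * (f η q r / r)) := by ring
  rw [e1, e2]
  refine mul_le_mul_of_nonneg_left ?_ b2
  nlinarith [Real.pi_lt_four]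

/-- the dyadic gain below `2π/3` -/
lemma f_gain {b : ℝ} (h0 : 0 ≤ b) (hb : b ≤ 2 * π / 3) :
    (1 - q) * (1 - 2 * η) * f η q (2 * b) ≤ f η q (2 * b) - f η q b := by
  have h1 := f_eq P b
  rw [B_small P.h1 h0 hb] at h1
  have hpi := Real.pi_pos
  have e : π * (1 - q) * (η * b / π) = (1 - q) * η * b := by field_simp
  have h2 : b ≤ 2 * f η q (2 * b) := by
    rcases le_total (2 * b) π with h | h
    · linarith [f_half P (r := 2 * b) (by linarith) h]
    · rw [f_pi P h]; linarith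
  have hq1 : 0 < 1 - q := by linarith [P.h4]
  have := mul_le_mul_of_nonneg_left h2 (mul_pos hq1 P.h1).le
  nlinarith

lemma f_bump : π * (1 - q) * (1 - η) ≤ f η q (2 * π / 3 + η) - f η q (2 * π / 3) := by
  have hpi := Real.pi_pos
  rw [f_eq P (2 * π / 3 + η), f_eq P (2 * π / 3), f_pi P (x := 2 * (2 * π / 3)) (by linarith),
    f_pi P (x := 2 * (2 * π / 3 + η)) (by linarith [P.h1])]
  have := mul_le_mul_of_nonneg_left (B_bump P.h1) P.c0.le
  linarith

end

end Pool.Agent.MP_e5b4ec_an
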