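import Pool.Agent.MP_e5b4ec_an.Constr

open Real MeasureTheory Filter Topology Set

namespace Pool.Agent.MP_e5b4ec_an

lemma w_le_abs (x : ℝ) : w x ≤ |x| := by
  have := w_lip x 0
  simpa [w] using this

lemma w_summ : Summable (fun k : ℕ => w (2 * π / 3 / 2 ^ k)) := by
  refine Summable.of_nonneg_of_le (fun k => w_nonneg _) (fun k => w_le_abs _) ?_
  have : (fun k : ℕ => |2 * π / 3 / 2 ^ k|) = fun k : ℕ => (2 * π / 3) * (1 / 2) ^ k := by
    ext k
    rw [abs_of_nonneg (by positivity), one_div_pow]; ring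
  rw [this]
  exact (summable_geometric_of_lt_one (by norm_num) (by norm_num)).mul_left _

noncomputable def Winf : ℝ := ∑' k : ℕ, w (2 * π / 3 / 2 ^ k)

lemma W_le_Winf (J : ℕ) : W J (2 * π / 3) ≤ Winf :=
  w_summ.sum_le_tsum _ (fun _ _ => w_nonneg _)

lemma W_tendsto : Tendsto (fun J => W J (2 * π / 3)) atTop (𝓝 Winf) :=
  w_summ.hasSum.tendsto_sum_nat

lemma Winf_nonneg : 0 ≤ Winf := tsum_nonneg (fun _ => w_nonneg _)

lemma int_B {η : ℝ} (h1 : 0 < η) (h2 : η ≤ 1 / 2) (j : ℕ) :
    ∫ θ in (0:ℝ)..π, (1 - B η (2 ^ j * θ)) * Real.sin θ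
      ≤ w (2 * π / 3 / 2 ^ j) + 5 * η * (1 / 2) ^ j := by
  have hpi := Real.pi_gt_three
  have hpi4 := Real.pi_lt_four
  have hc : Continuous (fun θ : ℝ => (1 - B η (2 ^ j * θ)) * Real.sin θ) :=
    (continuous_const.sub (B_cont.comp (by fun_prop))).mul Real.continuous_sin
  have hp : (1:ℝ) ≤ 2 ^ j := one_le_pow₀ (by norm_num)
  set a := (2 * π / 3 + η) / 2 ^ j with ha
  set b := π / 2 ^ j with hb
  have ha0 : 0 ≤ a := by positivity
  have hab : a ≤ b := by rw [ha, hb]; gcongr; linarith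
  have hbπ : b ≤ π := div_le_self (by linarith) hp
  rw [← intervalIntegral.integral_add_adjacent_intervals (b := a) (hc.intervalIntegrable _ _)
    (hc.intervalIntegrable _ _),
    ← intervalIntegral.integral_add_adjacent_intervals (a := a) (b := b) (hc.intervalIntegrable _ _)
    (hc.intervalIntegrable _ _)]
  have i1 : ∫ θ in (0:ℝ)..a, (1 - B η (2 ^ j * θ)) * Real.sin θ ≤ ∫ θ in (0:ℝ)..a, Real.sin θ := by
    refine intervalIntegral.integral_mono_on ha0 (hc.intervalIntegrable _ _)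
      (Real.continuous_sin.intervalIntegrable _ _) (fun θ hθ => ?_)
    have := Real.sin_nonneg_of_nonneg_of_le_pi hθ.1 (by linarith [hθ.2])
    nlinarith [B_nonneg h1 h2 (2 ^ j * θ)]
  have i2 : ∫ θ in a..b, (1 - B η (2 ^ j * θ)) * Real.sin θ ≤ ∫ θ in a..b, η := by
    refine intervalIntegral.integral_mono_on hab (hc.intervalIntegrable _ _)
      (continuous_const.intervalIntegrable _ _) (fun θ hθ => ?_)
    have s0 := Real.sin_nonneg_of_nonneg_of_le_pi (ha0.trans hθ.1) (by linarith [hθ.2])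
    have s1 := Real.sin_le_one θ
    have h3 : 2 * π / 3 + η ≤ 2 ^ j * θ := by
      have := hθ.1
      rw [ha, div_le_iff₀ (by positivity)] at this
      linarith
    have h4 : 1 - B η (2 ^ j * θ) ≤ η := by
      unfold B
      rw [R_one h1 h3]
      nlinarith [K_nonneg (2 ^ j * θ)]
    nlinarith
  have i3 : ∫ θ in b..π, (1 - B η (2 ^ j * θ)) * Real.sin θ = 0 := by
    rw [intervalIntegral.integral_congr (g := fun _ => 0)]
    · simp
    · intro θ hθ
      rw [uIcc_of_le hbπ] at hθ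
      have h3 : π ≤ 2 ^ j * θ := by
        have := hθ.1
        rw [hb, div_le_iff₀ (by positivity)] at this
        linarith
      simp [B_one h1 h2 h3]
  rw [integral_sin, Real.cos_zero] at i1
  rw [intervalIntegral.integral_const, smul_eq_mul] at i2
  have i4 := w_lip a (2 * π / 3 / 2 ^ j)
  have e1 : a - 2 * π / 3 / 2 ^ j = η * (1 / 2) ^ j := by
    rw [ha, one_div_pow]; ring
  have e2 : b = π * (1 / 2) ^ j := by rw [hb, one_div_pow]; ring
  rw [e1, abs_of_nonneg (by positivity)] at i4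
  have i5 : (b - a) * η ≤ 4 * η * (1 / 2) ^ j := by
    have : (0:ℝ) < (1 / 2) ^ j := by positivity
    have : b ≤ 4 * (1 / 2) ^ j := by rw [e2]; nlinarith
    nlinarith
  unfold w at i4 ⊢
  linarith

lemma int_f {η q : ℝ} (P : Par η q) :
    ∫ θ in (0:ℝ)..π, (π - f η q θ) * Real.sin θ ≤ π * (1 - q) * (Winf + 10 * η) := by
  have hpi := Real.pi_pos
  have hc : Continuous (fun θ : ℝ => (π - f η q θ) * Real.sin θ) :=
    (continuous_const.sub (f_cont P)).mul Real.continuous_sin
  have hcB : ∀ j : ℕ, Continuous (fun θ : ℝ => (1 - B η (2 ^ j * θ)) * Real.sin θ) := fun j =>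
    (continuous_const.sub (B_cont.comp (by fun_prop))).mul Real.continuous_sin
  have main : ∀ n : ℕ, ∫ θ in (0:ℝ)..π, (π - f η q θ) * Real.sin θ
      ≤ π * (1 - q) * (Winf + 10 * η) + π * π * q ^ n := by
    intro n
    have hpt : ∀ θ ∈ Icc (0:ℝ) π, (π - f η q θ) * Real.sin θ ≤
        ∑ j ∈ Finset.range n, π * (1 - q) * ((1 - B η (2 ^ j * θ)) * Real.sin θ) + π * q ^ n := by
      intro θ hθ
      have s0 := Real.sin_nonneg_of_nonneg_of_le_pi hθ.1 hθ.2
      have s1 := Real.sin_le_one θ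
      have e1 := f_iter P n θ
      have e2 : ∑ j ∈ Finset.range n, π * (1 - q) * q ^ j = π - π * q ^ n := by
        rw [← Finset.mul_sum]
        have := mul_neg_geom_sum q n
        linear_combination π * this
      have e3 : π - f η q θ = ∑ j ∈ Finset.range n, π * (1 - q) * q ^ j * (1 - B η (2 ^ j * θ))
          + q ^ n * (π - f η q (2 ^ n * θ)) := by
        have : ∑ j ∈ Finset.range n, π * (1 - q) * q ^ j * (1 - B η (2 ^ j * θ)) =
            ∑ j ∈ Finset.range n, π * (1 - q) * q ^ j -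
            ∑ j ∈ Finset.range n, π * (1 - q) * q ^ j * B η (2 ^ j * θ) := by
          rw [← Finset.sum_sub_distrib]
          exact Finset.sum_congr rfl (fun j _ => by ring)
        rw [this, e2]
        linarith
      rw [e3, add_mul, Finset.sum_mul]
      refine add_le_add (Finset.sum_le_sum (fun j _ => ?_)) ?_
      · have a1 : q ^ j ≤ 1 := pow_le_one₀ P.q0.le P.h4.le
        have a2 : 0 ≤ π * (1 - q) * ((1 - B η (2 ^ j * θ)) * Real.sin θ) :=
          mul_nonneg P.c0.le (mul_nonneg (by linarith [B_le_one P.h1 P.h2 (2 ^ j * θ)]) s0)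
        nlinarith
      · have a1 : 0 < q ^ n := pow_pos P.q0 n
        have a2 := f_nonneg P (2 ^ n * θ)
        have a3 := f_le_pi P (2 ^ n * θ)
        have a4 : (π - f η q (2 ^ n * θ)) * Real.sin θ ≤ π := by nlinarith
        nlinarith
    have hcB' : ∀ j : ℕ, Continuous
        (fun θ : ℝ => π * (1 - q) * ((1 - B η (2 ^ j * θ)) * Real.sin θ)) := fun j =>
      continuous_const.mul (hcB j)
    have hcS : Continuous (fun θ : ℝ =>
        ∑ j ∈ Finset.range n, π * (1 - q) * ((1 - B η (2 ^ j * θ)) * Real.sin θ)) :=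
      continuous_finsetSum _ (fun j _ => hcB' j)
    have hI := intervalIntegral.integral_mono_on (μ := volume) hpi.le (hc.intervalIntegrable _ _)
      (Continuous.intervalIntegrable (hcS.add continuous_const) _ _) hpt
    refine hI.trans ?_
    simp only [Pi.add_apply]
    rw [intervalIntegral.integral_add (hcS.intervalIntegrable _ _)
        (continuous_const.intervalIntegrable _ _),
      intervalIntegral.integral_finsetSum (fun j _ => (hcB' j).intervalIntegrable _ _),
      intervalIntegral.integral_const, smul_eq_mul]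
    simp_rw [intervalIntegral.integral_const_mul]
    rw [← Finset.mul_sum]
    have a1 : ∑ j ∈ Finset.range n, ∫ θ in (0:ℝ)..π, (1 - B η (2 ^ j * θ)) * Real.sin θ
        ≤ Winf + 10 * η := by
      refine (Finset.sum_le_sum (fun j _ => int_B P.h1 P.h2 j)).trans ?_
      rw [Finset.sum_add_distrib, ← Finset.mul_sum]
      have b1 := W_le_Winf n
      have b2 := (summable_geometric_two).sum_le_tsum (Finset.range n) (fun i _ => by positivity)
      rw [tsum_geometric_two] at b2
      unfold W at b1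
      nlinarith [P.h1]
    have a2 := mul_le_mul_of_nonneg_left a1 P.c0.le
    linarith
  have hlim : Tendsto (fun n : ℕ => π * (1 - q) * (Winf + 10 * η) + π * π * q ^ n) atTop
      (𝓝 (π * (1 - q) * (Winf + 10 * η) + π * π * 0)) :=
    tendsto_const_nhds.add ((tendsto_pow_atTop_nhds_zero_of_lt_one P.q0.le P.h4).const_mul _)
  rw [mul_zero, add_zero] at hlim
  exact ge_of_tendsto' hlim main

lemma Z_vv {η q : ℝ} (P : Par η q) : 2 - 2 * (1 - q) * (Winf + 10 * η) ≤ ‖Z (vv η q)‖ := by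
  refine le_trans ?_ (sin_le_norm_Z (vv_cont P))
  have hpi := Real.pi_pos
  have hf := f_cont P
  set g : ℝ → ℝ := fun θ => (π - f η q θ) * Real.sin θ with hg
  have hc : Continuous g := (continuous_const.sub hf).mul Real.continuous_sin
  have e1 : ∫ θ in (0:ℝ)..(2 * π), vv η q θ * Real.sin θ =
      ∫ θ in (0:ℝ)..(2 * π), (-g θ - g (2 * π - θ) + (π * Real.sin θ - θ * Real.sin θ)) := by
    refine intervalIntegral.integral_congr (fun θ hθ => ?_)
    rw [uIcc_of_le (by positivity)] at hθ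
    have := HH_eq P hθ.1 hθ.2
    unfold HH at this
    simp only [hg, Real.sin_two_pi_sub]
    have h2 : vv η q θ = f η q θ - f η q (2 * π - θ) + π - θ := by linarith
    rw [h2]; ring
  have e2 : ∫ θ in (0:ℝ)..(2 * π), g (2 * π - θ) = ∫ θ in (0:ℝ)..(2 * π), g θ := by
    rw [intervalIntegral.integral_comp_sub_left g]; simp
  have e3 : ∫ θ in (0:ℝ)..(2 * π), g θ = ∫ θ in (0:ℝ)..π, g θ := by
    rw [← intervalIntegral.integral_add_adjacent_intervals (b := π) (hc.intervalIntegrable _ _)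
      (hc.intervalIntegrable _ _)]
    have : ∫ θ in π..(2 * π), g θ = 0 := by
      rw [intervalIntegral.integral_congr (g := fun _ => 0)]
      · simp
      · intro θ hθ
        rw [uIcc_of_le (by linarith)] at hθ
        simp [hg, f_pi P hθ.1]
    rw [this, add_zero]
  have hc2 : Continuous (fun θ => g (2 * π - θ)) := by fun_prop
  have hc3 : Continuous (fun θ => -g θ) := hc.neg
  have hc4 : Continuous (fun θ => -g θ - g (2 * π - θ)) := hc3.sub hc2
  rw [e1, intervalIntegral.integral_add (hc4.intervalIntegrable _ _)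
      (Continuous.intervalIntegrable (by fun_prop) _ _),
    intervalIntegral.integral_sub (hc3.intervalIntegrable _ _) (hc2.intervalIntegrable _ _),
    intervalIntegral.integral_sub (Continuous.intervalIntegrable (by fun_prop) _ _)
      (Continuous.intervalIntegrable (by fun_prop) _ _), int_id_sin, intervalIntegral.integral_neg,
    e2, e3, intervalIntegral.integral_const_mul, integral_sin]
  have h4 := int_f P
  simp only [Real.cos_zero, Real.cos_two_pi, sub_self, mul_zero]
  rw [one_div, inv_mul_eq_div, le_div_iff₀ hpi]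
  nlinarith

lemma lower_large {ε : ℝ} (hε : 0 < ε) :
    ∀ᶠ M in atTop, ∃ v, IsQS M v ∧ M * (2 - ‖Z v‖) ≤ 4 * Winf + ε := by
  have hcont : ContinuousAt (fun η : ℝ => 4 * (Winf + 10 * η) / (1 - 2 * η)) 0 := by
    refine ContinuousAt.div (by fun_prop) (by fun_prop) (by norm_num)
  have hev : ∀ᶠ η in 𝓝 (0:ℝ), 4 * (Winf + 10 * η) / (1 - 2 * η) < 4 * Winf + ε :=
    hcont.eventually (gt_mem_nhds (by simp; linarith))
  have hev2 : ∀ᶠ η in 𝓝 (0:ℝ), η < 1 / 4 := gt_mem_nhds (by norm_num)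
  obtain ⟨η, ⟨h1, h2⟩, h3⟩ := (((hev.and hev2).filter_mono nhdsWithin_le_nhds).and
    (self_mem_nhdsWithin (s := Ioi (0:ℝ)))).exists
  have h3 : 0 < η := h3
  filter_upwards [eventually_ge_atTop (307200 / η ^ 3), eventually_ge_atTop 16] with M hM1 hM2
  have hd : 0 < 1 - 2 * η := by linarith
  set q := 1 - 2 / ((1 - 2 * η) * M) with hq
  have hpos : 0 < (1 - 2 * η) * M := by positivity
  have P : Par η q := by
    refine ⟨h3, by linarith, ?_, ?_⟩
    · have : 2 / ((1 - 2 * η) * M) ≤ 1 / 4 := by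
        rw [div_le_iff₀ hpos]; nlinarith
      linarith
    · have : 0 < 2 / ((1 - 2 * η) * M) := by positivity
      linarith
  have hM : (1 - q) * (1 - 2 * η) * M = 2 := by
    rw [hq]; field_simp; ring
  refine ⟨vv η q, vv_isQS P h2.le hM hM1, ?_⟩
  have h4 := Z_vv P
  have h5 : M * (2 * (1 - q) * (Winf + 10 * η)) = 4 * (Winf + 10 * η) / (1 - 2 * η) := by
    rw [eq_div_iff hd.ne']
    linear_combination (2 * (Winf + 10 * η)) * hM
  have h6 : M * (2 - ‖Z (vv η q)‖) ≤ M * (2 * (1 - q) * (Winf + 10 * η)) :=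
    mul_le_mul_of_nonneg_left (by linarith) (by linarith)
  linarith

lemma upper_large {ε : ℝ} (hε : 0 < ε) :
    ∀ᶠ M in atTop, ∀ v, IsQS M v → 4 * Winf - ε ≤ M * (2 - ‖Z v‖) := by
  have hpi := Real.pi_gt_three
  obtain ⟨J, hJ⟩ : ∃ J : ℕ, Winf - ε / 16 < W (J + 2) (2 * π / 3) := by
    have := (W_tendsto.comp (tendsto_add_atTop_nat 2)).eventually
      (lt_mem_nhds (show Winf - ε / 16 < Winf by linarith))
    exact this.exists
  set δ : ℝ := min (1 / (4 * 2 ^ J)) (ε / (32 * (J + 2))) with hδ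
  have hδ0 : 0 < δ := lt_min (by positivity) (by positivity)
  have hδ1 : 4 * δ * 2 ^ J ≤ 1 := by
    have : δ ≤ 1 / (4 * 2 ^ J) := min_le_left _ _
    rw [le_div_iff₀ (by positivity)] at this
    linarith
  have hδ2 : (J + 2) * (4 * δ) ≤ ε / 8 := by
    have : δ ≤ ε / (32 * (J + 2)) := min_le_right _ _
    rw [le_div_iff₀ (by positivity)] at this
    linarith
  have hδ3 : δ ≤ 1 := by
    have : (1:ℝ) ≤ 2 ^ J := one_le_pow₀ (by norm_num)
    nlinarith
  have hw : 0 < w δ := by
    unfold w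
    have := Real.cos_lt_cos_of_nonneg_of_le_pi le_rfl (show δ ≤ π by linarith) hδ0
    rw [Real.cos_zero] at this
    linarith
  have hW := Winf_nonneg
  filter_upwards [eventually_ge_atTop (16 * Winf ^ 2 / (w δ * ε)), eventually_gt_atTop 0]
    with M hM1 hM0
  intro v hv
  obtain ⟨H, hH, hZ⟩ := exists_lift hv
  obtain ⟨u1, u2⟩ := upper_core J hδ0 hδ1 hM0 hH
  set E := -(∫ θ in (0 : ℝ)..(2 * π), H θ * Real.sin θ) with hE
  set p := H δ - H (-δ) with hp
  have hZ' : 2 - ‖Z v‖ = E / π := by rw [hZ, hE]; ring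
  rw [hZ']
  by_contra hcon
  push Not at hcon
  have hp2 : p ≤ 2 * π := by
    have h1 := hH.per (-δ)
    have h2 : H δ ≤ H (-δ + 2 * π) := hH.mono.monotone (by linarith)
    linarith
  have hp0 : 0 ≤ p := sub_nonneg.mpr (hH.mono.monotone (by linarith))
  have hE0 : 0 ≤ E := le_trans (mul_nonneg hw.le (by linarith)) u1
  rw [← mul_div_assoc, div_lt_iff₀ (by linarith)] at hcon
  set A := 2 * W (J + 2) (2 * π / 3) - (J + 2) * (4 * δ) with hA
  have hA1 : 2 * Winf - ε / 4 ≤ A := by linarith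
  have hA2 : A ≤ 2 * Winf := by
    have := W_le_Winf (J + 2)
    have : 0 ≤ ((J:ℝ) + 2) * (4 * δ) := by positivity
    linarith
  have h1 : p * A ≤ M * E := by
    have := mul_le_mul_of_nonneg_left u2 hM0.le
    have e : M * (p / M * A) = p * A := by field_simp
    linarith
  -- (2π - p) * M * w δ ≤ M E ≤ 4 π Winf
  have h2 : M * (w δ * (2 * π - p)) ≤ 4 * Winf * π := by
    have := mul_le_mul_of_nonneg_left u1 hM0.le
    nlinarith
  have h3 : 16 * Winf ^ 2 ≤ M * (w δ * ε) := by rwa [div_le_iff₀ (by positivity)] at hM1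
  have h4 : (2 * π - p) * (2 * Winf) ≤ π * ε / 2 := by
    have hMw : 0 < M * w δ := by positivity
    refine le_of_mul_le_mul_left ?_ hMw
    nlinarith
  have h5 : (2 * π - p) * A ≤ (2 * π - p) * (2 * Winf) :=
    mul_le_mul_of_nonneg_left hA2 (by linarith)
  nlinarith

theorem tendsto_large : Tendsto (fun M : ℝ => M * (2 - c M)) atTop (𝓝 (4 * Winf)) := by
  rw [Metric.tendsto_nhds]
  intro ε hε
  filter_upwards [lower_large (half_pos hε), upper_large (half_pos hε), eventually_gt_atTop 0]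
    with M h1 h2 hM
  obtain ⟨v, hv, hv2⟩ := h1
  rw [c_eq]
  set S := {a : ℝ | ∃ v, IsQS M v ∧ a = ‖Z v‖} with hS
  have hub : ∀ a ∈ S, a ≤ 2 - (4 * Winf - ε / 2) / M := by
    rintro a ⟨u, hu, rfl⟩
    have := h2 u hu
    have : (4 * Winf - ε / 2) / M ≤ 2 - ‖Z u‖ := by rw [div_le_iff₀ hM]; linarith
    linarith
  have hmem : ‖Z v‖ ∈ S := ⟨v, hv, rfl⟩
  have a1 : sSup S ≤ 2 - (4 * Winf - ε / 2) / M := csSup_le ⟨_, hmem⟩ hub
  have a2 : ‖Z v‖ ≤ sSup S := le_csSup ⟨_, hub⟩ hmem
  have a3 : (4 * Winf - ε / 2) / M ≤ 2 - sSup S := by linarith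
  rw [div_le_iff₀ hM] at a3
  have a4 : M * (2 - sSup S) ≤ M * (2 - ‖Z v‖) := mul_le_mul_of_nonneg_left (by linarith) hM.le
  rw [Real.dist_eq, abs_lt]
  constructor <;> linarith

end Pool.Agent.MP_e5b4ec_an
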