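import Pool.Agent.MP_e5b4ec_an.Coef

open Real MeasureTheory Filter Topology Set

namespace Pool.Agent.MP_e5b4ec_an

lemma Z_im {v : ℝ → ℝ} (hv : Continuous v) :
    (Z v).im = -((1 / π) * ∫ θ in (0 : ℝ)..(2 * π), v θ * Real.sin θ) := by
  unfold Z
  have hc : Continuous (fun θ : ℝ => (v θ : ℂ) * Complex.exp (-(θ * Complex.I))) := by
    have := Complex.continuous_ofReal.comp hv
    fun_prop
  have hI := hc.intervalIntegrable (μ := volume) (0:ℝ) (2 * π)
  have h1 := (Complex.imCLM.intervalIntegral_comp_comm hI).symm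
  simp only [Complex.imCLM_apply] at h1
  have : (1 / π : ℂ) = ((1 / π : ℝ) : ℂ) := by push_cast; ring
  rw [this, Complex.im_ofReal_mul, h1, ← mul_neg, ← intervalIntegral.integral_neg]
  congr 2
  ext θ
  rw [Complex.im_ofReal_mul]
  have : -((θ:ℂ) * Complex.I) = ((-θ : ℝ) : ℂ) * Complex.I := by push_cast; ring
  rw [this, Complex.exp_ofReal_mul_I_im, Real.sin_neg]
  ring

lemma sin_le_norm_Z {v : ℝ → ℝ} (hv : Continuous v) :
    (1 / π) * ∫ θ in (0 : ℝ)..(2 * π), v θ * Real.sin θ ≤ ‖Z v‖ := by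
  have h := Complex.abs_im_le_norm (Z v)
  rw [Z_im hv, abs_neg] at h
  exact (le_abs_self _).trans h

lemma Z_shift {v : ℝ → ℝ} (hp : Function.Periodic v (2 * π)) (a : ℝ) :
    Z (fun θ => v (θ + a)) = Complex.exp (a * Complex.I) * Z v := by
  unfold Z
  set g : ℝ → ℂ := fun θ => (v θ : ℂ) * Complex.exp (-(θ * Complex.I)) with hg
  have hgp : Function.Periodic g (2 * π) := by
    intro θ
    simp only [hg, hp θ]
    congr 1
    have : -(((θ + 2 * π : ℝ) : ℂ) * Complex.I) = -(θ * Complex.I) - 2 * π * Complex.I := by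
      push_cast; ring
    rw [this, Complex.exp_sub, Complex.exp_two_pi_mul_I, div_one]
  have h1 : ∀ θ : ℝ, (v (θ + a) : ℂ) * Complex.exp (-(θ * Complex.I))
      = Complex.exp (a * Complex.I) * g (θ + a) := by
    intro θ
    simp only [hg]
    have : -((θ : ℂ) * Complex.I) = a * Complex.I + -(((θ + a : ℝ) : ℂ) * Complex.I) := by
      push_cast; ring
    rw [this, Complex.exp_add]
    ring
  simp_rw [h1]
  rw [intervalIntegral.integral_const_mul, intervalIntegral.integral_comp_add_right g a]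
  have h2 := hgp.intervalIntegral_add_eq (0 + a) 0
  have h3 : 0 + a + 2 * π = 2 * π + a := by ring
  rw [h3, zero_add (2 * π)] at h2
  rw [h2]
  ring

lemma exists_rot {v : ℝ → ℝ} (hv : Continuous v) (hp : Function.Periodic v (2 * π)) :
    ∃ a : ℝ, ‖Z v‖ = (1 / π) * ∫ θ in (0 : ℝ)..(2 * π), v (θ + a) * Real.sin θ := by
  refine ⟨-(Complex.arg (Z v)) - π / 2, ?_⟩
  have hc : Continuous (fun θ => v (θ + (-(Complex.arg (Z v)) - π / 2))) := by fun_prop
  have h := Z_im hc
  rw [Z_shift hp] at h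
  have h2 : Complex.exp (((-(Complex.arg (Z v)) - π / 2 : ℝ) : ℂ) * Complex.I) * Z v
      = (‖Z v‖ : ℂ) * Complex.exp (((-(π / 2) : ℝ) : ℂ) * Complex.I) := by
    have h3 := Complex.norm_mul_exp_arg_mul_I (Z v)
    have : ((-(π / 2) : ℝ) : ℂ) * Complex.I =
        ((-(Complex.arg (Z v)) - π / 2 : ℝ) : ℂ) * Complex.I + (Complex.arg (Z v)) * Complex.I := by
      push_cast; ring
    rw [this, Complex.exp_add]
    linear_combination (-Complex.exp (((-(Complex.arg (Z v)) - π / 2 : ℝ) : ℂ) * Complex.I)) * h3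
  rw [h2, Complex.im_ofReal_mul, Complex.exp_ofReal_mul_I_im, Real.sin_neg, Real.sin_pi_div_two] at h
  linarith

/-- lifts -/
structure IsLift (M : ℝ) (H : ℝ → ℝ) : Prop where
  cont : Continuous H
  mono : StrictMono H
  per : ∀ x, H (x + 2 * π) = H x + 2 * π
  qs1 : ∀ x t, 0 < t → t ≤ π → H (x + t) - H x ≤ M * (H x - H (x - t))
  qs2 : ∀ x t, 0 < t → t ≤ π → H x - H (x - t) ≤ M * (H (x + t) - H x)

lemma int_id_sin : ∫ θ in (0 : ℝ)..(2 * π), θ * Real.sin θ = -(2 * π) := by
  have h : ∀ x ∈ uIcc (0:ℝ) (2 * π),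
      HasDerivAt (fun x => Real.sin x - x * Real.cos x) (x * Real.sin x) x := by
    intro x _
    have := (Real.hasDerivAt_sin x).fun_sub ((hasDerivAt_id' x).fun_mul (Real.hasDerivAt_cos x))
    have h2 : Real.cos x - (1 * Real.cos x + x * -Real.sin x) = x * Real.sin x := by ring
    rw [h2] at this
    exact this
  rw [intervalIntegral.integral_eq_sub_of_hasDerivAt h
    ((by fun_prop : Continuous fun x : ℝ => x * Real.sin x).intervalIntegrable _ _)]
  simp

lemma exists_lift {M : ℝ} {v : ℝ → ℝ} (hv : IsQS M v) :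
    ∃ H, IsLift M H ∧ ‖Z v‖ = 2 + (1 / π) * ∫ θ in (0 : ℝ)..(2 * π), H θ * Real.sin θ := by
  obtain ⟨hc, hp, hm, -, hq⟩ := hv
  obtain ⟨a, ha⟩ := exists_rot hc hp
  refine ⟨fun θ => θ + v (θ + a), ⟨by fun_prop, ?_, ?_, ?_, ?_⟩, ?_⟩
  · intro x y hxy
    have := hm (show x + a < y + a by linarith)
    simp only at this ⊢
    linarith
  · intro x
    have := hp (x + a)
    have h2 : x + 2 * π + a = x + a + 2 * π := by ring
    rw [h2, this]; ring
  · intro x t ht htp
    have := (hq (x + a) t ht htp).1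
    have h2 : x + t + a = x + a + t := by ring
    have h3 : x - t + a = x + a - t := by ring
    rw [h2, h3]
    convert this using 1 <;> ring
  · intro x t ht htp
    have := (hq (x + a) t ht htp).2
    have h2 : x + t + a = x + a + t := by ring
    have h3 : x - t + a = x + a - t := by ring
    rw [h2, h3]
    convert this using 1 <;> ring
  · rw [ha]
    have h1 : ∀ θ, (θ + v (θ + a)) * Real.sin θ = θ * Real.sin θ + v (θ + a) * Real.sin θ := by
      intro θ; ring
    simp_rw [h1]
    rw [intervalIntegral.integral_add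
      ((by fun_prop : Continuous fun x : ℝ => x * Real.sin x).intervalIntegrable _ _)
      ((by fun_prop : Continuous fun x : ℝ => v (x + a) * Real.sin x).intervalIntegrable _ _),
      int_id_sin]
    have := Real.pi_ne_zero
    field_simp
    ring

end Pool.Agent.MP_e5b4ec_an
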