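import Pool.Agent.MP_e5b4ec_an.Rot

open Real MeasureTheory Filter Topology Set

namespace Pool.Agent.MP_e5b4ec_an

noncomputable def w (x : ℝ) : ℝ := 1 - Real.cos x

lemma w_nonneg (x : ℝ) : 0 ≤ w x := by unfold w; linarith [Real.cos_le_one x]

lemma w_cont : Continuous w := by unfold w; fun_prop

lemma w_mono {x y : ℝ} (hx : 0 ≤ x) (hxy : x ≤ y) (hy : y ≤ π) : w x ≤ w y := by
  unfold w
  have := Real.cos_le_cos_of_nonneg_of_le_pi hx hy hxy
  linarith

lemma w_lip (x y : ℝ) : w x ≤ w y + |x - y| := by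
  unfold w
  have := Real.abs_cos_sub_cos_le y x
  rw [abs_sub_comm y x] at this
  linarith [le_abs_self (Real.cos y - Real.cos x)]

lemma w_refl (x : ℝ) : w (2 * π - x) = w x := by
  unfold w; rw [Real.cos_two_pi_sub]

lemma w_near {x y d : ℝ} (hd : 0 ≤ d) (hy0 : 0 ≤ y) (hx : x ≤ π) (h : y - d ≤ x) :
    w y - d ≤ w x := by
  rcases le_total y x with h1 | h1
  · linarith [w_mono hy0 h1 hx]
  · have := w_lip y x
    rw [abs_of_nonneg (by linarith)] at this
    linarith

lemma IsLift.surj {M : ℝ} {H : ℝ → ℝ} (h : IsLift M H) : Function.Surjective H := by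
  have hn : ∀ n : ℕ, H (n * (2 * π)) = H 0 + n * (2 * π) := by
    intro n
    induction n with
    | zero => simp
    | succ n ih =>
      have : ((n + 1 : ℕ) : ℝ) * (2 * π) = n * (2 * π) + 2 * π := by push_cast; ring
      rw [this, h.per, ih]; ring
  have hn' : ∀ n : ℕ, H (-(n * (2 * π))) = H 0 - n * (2 * π) := by
    intro n
    induction n with
    | zero => simp
    | succ n ih =>
      have h1 := h.per (-(((n + 1 : ℕ) : ℝ) * (2 * π)))
      have : -(((n + 1 : ℕ) : ℝ) * (2 * π)) + 2 * π = -(n * (2 * π)) := by push_cast; ring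
      rw [this, ih] at h1
      push_cast at h1 ⊢
      linarith
  intro u
  obtain ⟨n, hn1⟩ := exists_nat_ge (|u - H 0|)
  have hp : (n : ℝ) ≤ n * (2 * π) := by
    have : (0:ℝ) ≤ n := Nat.cast_nonneg n
    nlinarith [Real.pi_gt_three]
  have h1 : H (-(n * (2 * π))) ≤ u := by
    rw [hn']; linarith [neg_abs_le (u - H 0)]
  have h2 : u ≤ H (n * (2 * π)) := by
    rw [hn]; linarith [le_abs_self (u - H 0)]
  exact mem_range_of_exists_le_of_exists_ge h.cont ⟨_, h1⟩ ⟨_, h2⟩

/-- quantile identity -/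
lemma quantile {H G : ℝ → ℝ} (hc : Continuous H)
    (hGH : ∀ x u, u < H x ↔ G u < x) (hGH' : ∀ x u, H x ≤ u ↔ x ≤ G u)
    (hm : Monotone H) (hper : H (2 * π) = H 0 + 2 * π) :
    -(∫ θ in (0 : ℝ)..(2 * π), H θ * Real.sin θ) = ∫ u in (H 0)..(H 0 + 2 * π), w (G u) := by
  have h2pi : (0:ℝ) ≤ 2 * π := by positivity
  set μ : Measure ℝ := volume.restrict (Ioc 0 (2 * π)) with hμ
  set ν : Measure ℝ := volume.restrict (Ioo (H 0) (H 0 + 2 * π)) with hν
  set f : ℝ → ℝ → ℝ := fun θ u => if u < H θ then Real.sin θ else 0 with hf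
  have hmeas : Measurable (Function.uncurry f) := by
    refine Measurable.ite ?_ (by fun_prop) measurable_const
    exact measurableSet_lt measurable_snd (hc.measurable.comp measurable_fst)
  have hint : Integrable (Function.uncurry f) (μ.prod ν) := by
    refine Integrable.of_bound (C := 1) hmeas.aestronglyMeasurable (ae_of_all _ ?_)
    rintro ⟨θ, u⟩
    simp only [Function.uncurry, hf]
    split_ifs
    · exact Real.abs_sin_le_one θ
    · simp
  have hswap := integral_integral_swap hint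
  have hL : ∫ θ, ∫ u, f θ u ∂ν ∂μ = ∫ θ in (0 : ℝ)..(2 * π), H θ * Real.sin θ := by
    have e1 : ∫ θ in (0 : ℝ)..(2 * π), H θ * Real.sin θ
        = ∫ θ in (0 : ℝ)..(2 * π), (H θ - H 0) * Real.sin θ := by
      have : ∀ θ, (H θ - H 0) * Real.sin θ = H θ * Real.sin θ - H 0 * Real.sin θ := by
        intro θ; ring
      simp_rw [this]
      rw [intervalIntegral.integral_sub
        ((by fun_prop : Continuous fun x : ℝ => H x * Real.sin x).intervalIntegrable _ _)
        ((by fun_prop : Continuous fun x : ℝ => H 0 * Real.sin x).intervalIntegrable _ _),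
        intervalIntegral.integral_const_mul]
      simp
    rw [e1, intervalIntegral.integral_of_le h2pi]
    refine setIntegral_congr_fun measurableSet_Ioc (fun θ hθ => ?_)
    have h1 : H 0 ≤ H θ := hm hθ.1.le
    have h2 : H θ ≤ H 0 + 2 * π := hper ▸ hm hθ.2
    have : (fun u => f θ u) = (Iio (H θ)).indicator (fun _ => Real.sin θ) := by
      ext u; simp [hf, indicator]
    change ∫ u, f θ u ∂ν = _
    rw [this, integral_indicator measurableSet_Iio, hν, Measure.restrict_restrict measurableSet_Iio]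
    have : Iio (H θ) ∩ Ioo (H 0) (H 0 + 2 * π) = Ioo (H 0) (H θ) := by
      ext u
      simp only [mem_inter_iff, mem_Iio, mem_Ioo]
      constructor
      · rintro ⟨a, b, _⟩; exact ⟨b, a⟩
      · rintro ⟨a, b⟩; exact ⟨b, a, by linarith⟩
    rw [this, setIntegral_const, Real.volume_real_Ioo_of_le h1, smul_eq_mul]
  have hR : ∫ u, ∫ θ, f θ u ∂μ ∂ν = -∫ u in (H 0)..(H 0 + 2 * π), w (G u) := by
    rw [intervalIntegral.integral_of_le (by linarith), integral_Ioc_eq_integral_Ioo,
      ← integral_neg]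
    refine setIntegral_congr_fun measurableSet_Ioo (fun u hu => ?_)
    have h1 : 0 ≤ G u := (hGH' 0 u).mp hu.1.le
    have h2 : G u < 2 * π := (hGH _ u).mp (hper ▸ hu.2)
    have : (fun θ => f θ u) = (Ioi (G u)).indicator (fun θ => Real.sin θ) := by
      ext θ; simp [hf, indicator, hGH]
    change ∫ θ, f θ u ∂μ = _
    rw [this, integral_indicator measurableSet_Ioi, hμ, Measure.restrict_restrict measurableSet_Ioi]
    have : Ioi (G u) ∩ Ioc 0 (2 * π) = Ioc (G u) (2 * π) := by
      ext θ
      simp only [mem_inter_iff, mem_Ioi, mem_Ioc]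
      constructor
      · rintro ⟨a, _, b⟩; exact ⟨a, b⟩
      · rintro ⟨a, b⟩; exact ⟨a, by linarith, b⟩
    rw [this, ← intervalIntegral.integral_of_le h2.le, integral_sin]
    simp [w]
  rw [← hL, hswap, hR, neg_neg]

noncomputable def W (J : ℕ) (t : ℝ) : ℝ := ∑ j ∈ Finset.range J, w (t / 2 ^ j)

lemma W_mono (J : ℕ) {x y : ℝ} (hx : 0 ≤ x) (hxy : x ≤ y) (hy : y ≤ π) : W J x ≤ W J y := by
  refine Finset.sum_le_sum (fun j _ => w_mono (by positivity) (by gcongr) ?_)
  have : (1:ℝ) ≤ 2 ^ j := one_le_pow₀ (by norm_num)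
  calc y / 2 ^ j ≤ y := div_le_self (by linarith) this
    _ ≤ π := hy

lemma w_diff_le {x y : ℝ} (hx : 0 ≤ x) (hxy : x ≤ y) : w y - w x ≤ y * (y - x) := by
  unfold w
  have h := Real.cos_sub_cos x y
  have h1 : Real.sin ((x + y) / 2) ≤ y := (Real.sin_le (by linarith)).trans (by linarith)
  have h2 : Real.sin ((y - x) / 2) ≤ (y - x) / 2 := Real.sin_le (by linarith)
  have h3 : Real.sin ((x - y) / 2) = -Real.sin ((y - x) / 2) := by
    rw [← Real.sin_neg]; congr 1; ring
  rw [h3] at h
  have h4 : |Real.sin ((x + y) / 2)| ≤ y := by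
    have := Real.abs_sin_le_abs (x := (x + y) / 2)
    rw [abs_of_nonneg (by linarith : 0 ≤ (x + y) / 2)] at this
    linarith
  have h5 : |Real.sin ((y - x) / 2)| ≤ (y - x) / 2 := by
    have := Real.abs_sin_le_abs (x := (y - x) / 2)
    rwa [abs_of_nonneg (by linarith : 0 ≤ (y - x) / 2)] at this
  have h6 : Real.sin ((x + y) / 2) * Real.sin ((y - x) / 2) ≤ y * ((y - x) / 2) := by
    refine (le_abs_self _).trans ?_
    rw [abs_mul]
    exact mul_le_mul h4 h5 (abs_nonneg _) (by linarith)
  linarith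

lemma w_top {t : ℝ} (h1 : 2 * π / 3 ≤ t) (h2 : t ≤ π) :
    (t - 2 * π / 3) * (3 / (2 * π)) ≤ w t - w (2 * π / 3) := by
  -- concavity of cos on [0, π/2], applied to π - t
  have hpi := Real.pi_pos
  have hcon := (strictConcaveOn_cos_Icc.concaveOn).2
    (show (0:ℝ) ∈ Icc (-(π / 2)) (π / 2) from ⟨by linarith, by linarith⟩)
    (show π / 3 ∈ Icc (-(π / 2)) (π / 2) from ⟨by linarith, by linarith⟩)
    (show 0 ≤ (t - 2 * π / 3) * (3 / π) by positivity)
    (show 0 ≤ (π - t) * (3 / π) by
      have : 0 ≤ π - t := by linarith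
      positivity)
    (by field_simp; ring)
  simp only [smul_eq_mul, mul_zero, zero_add, Real.cos_zero, mul_one, Real.cos_pi_div_three] at hcon
  have e1 : (π - t) * (3 / π) * (π / 3) = π - t := by field_simp
  rw [e1, Real.cos_pi_sub] at hcon
  have e2 : Real.cos (2 * π / 3) = -(1 / 2) := by
    have : 2 * π / 3 = π - π / 3 := by ring
    rw [this, Real.cos_pi_sub, Real.cos_pi_div_three]
  unfold w
  rw [e2]
  have e3 : (t - 2 * π / 3) * (3 / π) + (π - t) * (3 / π) * (1 / 2)
      = (t - 2 * π / 3) * (3 / (2 * π)) + 1 / 2 := by field_simp; ring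
  linarith

lemma W_edge (J : ℕ) {t : ℝ} (h1 : 2 * π / 3 ≤ t) (h2 : t ≤ π) :
    2 * W (J + 2) (2 * π / 3) ≤ W (J + 2) t + W (J + 2) (π - t / 2) := by
  have hpi := Real.pi_pos
  set t0 := 2 * π / 3 with ht0
  have hA : W (J + 2) t = w t + w (t / 2) + ∑ j ∈ Finset.range J, w (t / 2 ^ (j + 2)) := by
    unfold W
    rw [Finset.sum_range_succ', Finset.sum_range_succ']
    simp; ring
  have hA0 : W (J + 2) t0 = w t0 + w (t0 / 2) + ∑ j ∈ Finset.range J, w (t0 / 2 ^ (j + 2)) := by
    unfold W
    rw [Finset.sum_range_succ', Finset.sum_range_succ']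
    simp; ring
  have hB : W (J + 2) (π - t / 2) = w (π - t / 2) +
      ∑ j ∈ Finset.range (J + 1), w ((π - t / 2) / 2 ^ (j + 1)) := by
    unfold W
    rw [Finset.sum_range_succ']
    simp; ring
  have hB0 : W (J + 2) t0 = w t0 + ∑ j ∈ Finset.range (J + 1), w (t0 / 2 ^ (j + 1)) := by
    unfold W
    rw [Finset.sum_range_succ']
    simp; ring
  have e1 : w (π - t / 2) + w (t / 2) = 2 := by unfold w; rw [Real.cos_pi_sub]; ring
  have e2 : w t0 + w (t0 / 2) = 2 := by
    unfold w
    have : t0 = π - t0 / 2 := by rw [ht0]; ring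
    conv_lhs => rw [this, Real.cos_pi_sub, ← this]
    ring
  have s1 : ∑ j ∈ Finset.range J, w (t0 / 2 ^ (j + 2)) ≤ ∑ j ∈ Finset.range J, w (t / 2 ^ (j + 2)) := by
    refine Finset.sum_le_sum (fun j _ => w_mono (by positivity) (by gcongr) ?_)
    have : (1:ℝ) ≤ 2 ^ (j + 2) := one_le_pow₀ (by norm_num)
    calc t / 2 ^ (j + 2) ≤ t := div_le_self (by linarith) this
      _ ≤ π := h2
  have s2 : ∑ j ∈ Finset.range (J + 1), w (t0 / 2 ^ (j + 1)) ≤
      ∑ j ∈ Finset.range (J + 1), w ((π - t / 2) / 2 ^ (j + 1))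
        + ∑ j ∈ Finset.range (J + 1), (t0 * ((t - t0) / 2) / 4) * (1 / 4) ^ j := by
    rw [← Finset.sum_add_distrib]
    refine Finset.sum_le_sum (fun j _ => ?_)
    have hx : 0 ≤ (π - t / 2) / 2 ^ (j + 1) := by
      have : 0 ≤ π - t / 2 := by linarith
      positivity
    have hxy : (π - t / 2) / 2 ^ (j + 1) ≤ t0 / 2 ^ (j + 1) := by
      gcongr; rw [ht0]; linarith
    have := w_diff_le hx hxy
    have e : t0 / 2 ^ (j + 1) * (t0 / 2 ^ (j + 1) - (π - t / 2) / 2 ^ (j + 1))
        = (t0 * ((t - t0) / 2) / 4) * (1 / 4) ^ j := by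
      have h4 : ((1:ℝ) / 4) ^ j = 1 / (2 ^ j * 2 ^ j) := by
        rw [← mul_pow, one_div_pow]; norm_num
      have hπ : π = 3 * t0 / 2 := by rw [ht0]; ring
      rw [h4, hπ]
      field_simp
      ring
    linarith
  have s3 : ∑ j ∈ Finset.range (J + 1), (t0 * ((t - t0) / 2) / 4) * (1 / 4) ^ j
      ≤ (t0 * ((t - t0) / 2) / 4) * (4 / 3) := by
    rw [← Finset.mul_sum]
    have hnn : 0 ≤ t0 * ((t - t0) / 2) / 4 := by
      have : 0 ≤ t - t0 := by linarith
      positivity
    refine mul_le_mul_of_nonneg_left ?_ hnn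
    have := (summable_geometric_of_lt_one (by norm_num : (0:ℝ) ≤ 1 / 4) (by norm_num)).sum_le_tsum
      (Finset.range (J + 1)) (fun i _ => by positivity)
    rw [tsum_geometric_of_lt_one (by norm_num) (by norm_num)] at this
    norm_num at this ⊢
    exact this
  have s4 := w_top h1 h2
  rw [← ht0] at s4
  have s5 : (t0 * ((t - t0) / 2) / 4) * (4 / 3) ≤ (t - t0) * (3 / (2 * π)) := by
    have h3 : 0 ≤ t - t0 := by linarith
    have : t0 / 6 ≤ 3 / (2 * π) := by
      rw [ht0, le_div_iff₀ (by positivity)]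
      nlinarith [Real.pi_lt_d2]
    nlinarith
  linarith

lemma W_pair (J : ℕ) {t s : ℝ} (ht : t ≤ π) (hs : s ≤ π) (h1 : 2 * π - s ≤ 2 * t)
    (h2 : 2 * π - t ≤ 2 * s) : 2 * W (J + 2) (2 * π / 3) ≤ W (J + 2) t + W (J + 2) s := by
  have hpi := Real.pi_pos
  rcases le_total s t with h | h
  · have := W_edge J (t := t) (by linarith) ht
    have := W_mono (J + 2) (x := π - t / 2) (y := s) (by linarith) (by linarith) hs
    linarith
  · have := W_edge J (t := s) (by linarith) hs
    have := W_mono (J + 2) (x := π - s / 2) (y := t) (by linarith) (by linarith) ht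
    linarith

lemma chain (J : ℕ) {δ : ℝ} (hδ : 0 < δ) (p : ℕ → ℝ)
    (hstep : ∀ j, 3 * δ ≤ p j → (p j - δ) / 2 ≤ p (j + 1)) (h0 : 4 * δ * 2 ^ J ≤ p 0) :
    ∀ j ≤ J + 1, p 0 / 2 ^ j - δ ≤ p j := by
  intro j
  induction j with
  | zero => intro _; simp; linarith
  | succ j ih =>
    intro hj
    have ih := ih (by omega)
    have h2 : (2:ℝ) ^ j ≤ 2 ^ J := pow_le_pow_right₀ (by norm_num) (by omega)
    have h3 : 4 * δ ≤ p 0 / 2 ^ j := by
      rw [le_div_iff₀ (by positivity)]
      nlinarith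
    have := hstep j (by linarith)
    have e : p 0 / 2 ^ (j + 1) = p 0 / 2 ^ j / 2 := by rw [pow_succ, div_div]
    linarith

lemma chain_sum (J : ℕ) {δ : ℝ} (hδ : 0 < δ) (p : ℕ → ℝ) (hp : ∀ j, p j ≤ π)
    (hstep : ∀ j, 3 * δ ≤ p j → (p j - δ) / 2 ≤ p (j + 1)) (h0 : 4 * δ * 2 ^ J ≤ p 0) :
    W (J + 2) (min π (p 0 + δ)) - (J + 2) * (2 * δ) ≤ ∑ j ∈ Finset.range (J + 2), w (p j) := by
  have hp0 : 0 ≤ p 0 := le_trans (by positivity) h0
  have : ((J:ℝ) + 2) * (2 * δ) = ∑ j ∈ Finset.range (J + 2), 2 * δ := by simp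
  rw [this, W, ← Finset.sum_sub_distrib]
  refine Finset.sum_le_sum (fun j hj => ?_)
  have hj : j ≤ J + 1 := by simp at hj; omega
  have h1 := chain J hδ p hstep h0 j hj
  have hm : 0 ≤ min π (p 0 + δ) := le_min Real.pi_pos.le (by linarith)
  refine w_near (by linarith) (by positivity) (hp j) ?_
  have h2 : (1:ℝ) ≤ 2 ^ j := one_le_pow₀ (by norm_num)
  have h3 : min π (p 0 + δ) / 2 ^ j ≤ (p 0 + δ) / 2 ^ j := by
    gcongr; exact min_le_right _ _
  have h4 : δ / 2 ^ j ≤ δ := div_le_self hδ.le h2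
  rw [add_div] at h3
  linarith

lemma upper_core (J : ℕ) {δ M : ℝ} (hδ : 0 < δ) (hδJ : 4 * δ * 2 ^ J ≤ 1) (hM : 0 < M)
    {H : ℝ → ℝ} (h : IsLift M H) :
    w δ * (2 * π - (H δ - H (-δ))) ≤ -(∫ θ in (0 : ℝ)..(2 * π), H θ * Real.sin θ) ∧
    (H δ - H (-δ)) / M * (2 * W (J + 2) (2 * π / 3) - (J + 2) * (4 * δ))
      ≤ -(∫ θ in (0 : ℝ)..(2 * π), H θ * Real.sin θ) := by
  have hpi := Real.pi_gt_three
  set e := h.mono.orderIsoOfSurjective H h.surj with he
  set G : ℝ → ℝ := fun u => e.symm u with hG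
  have hGc : Continuous G := e.symm.continuous
  have hGm : Monotone G := e.symm.monotone
  have hHG : ∀ u, H (G u) = u := fun u => e.apply_symm_apply u
  have hGH : ∀ x, G (H x) = x := fun x => e.symm_apply_apply x
  have hlt : ∀ x u, u < H x ↔ G u < x := by
    intro x u
    rw [← h.mono.lt_iff_lt (a := G u) (b := x), hHG]
  have hle : ∀ x u, H x ≤ u ↔ x ≤ G u := by
    intro x u
    rw [← h.mono.le_iff_le (a := x) (b := G u), hHG]
  have hle' : ∀ x u, u ≤ H x ↔ G u ≤ x := by
    intro x u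
    rw [← h.mono.le_iff_le (a := G u) (b := x), hHG]
  have hper0 : H (2 * π) = H 0 + 2 * π := by simpa using h.per 0
  rw [quantile h.cont hlt hle h.mono.monotone hper0]
  have hδ1 : δ ≤ 1 / 4 := by
    have : (1:ℝ) ≤ 2 ^ J := one_le_pow₀ (by norm_num)
    nlinarith
  set g : ℝ → ℝ := fun u => w (G u) with hg
  have hgc : Continuous g := w_cont.comp hGc
  have hg0 : ∀ u, 0 ≤ g u := fun u => w_nonneg _
  have hsub : ∀ a b, H 0 ≤ a → a ≤ b → b ≤ H 0 + 2 * π →
      ∫ u in a..b, g u ≤ ∫ u in (H 0)..(H 0 + 2 * π), g u := by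
    intro a b h1 h2 h3
    exact intervalIntegral.integral_mono_interval h1 h2 h3 (ae_of_all _ hg0)
      (hgc.intervalIntegrable _ _)
  have hperδ : H (2 * π - δ) = H (-δ) + 2 * π := by
    have := h.per (-δ)
    rwa [show -δ + 2 * π = 2 * π - δ by ring] at this
  have hperδ' : H (2 * π + δ) = H δ + 2 * π := by
    have := h.per δ
    rwa [show δ + 2 * π = 2 * π + δ by ring] at this
  constructor
  · have h1 : H δ ≤ H (2 * π - δ) := h.mono.monotone (by linarith)
    refine le_trans ?_ (hsub (H δ) (H (2 * π - δ)) (h.mono.monotone hδ.le) h1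
      (hper0 ▸ h.mono.monotone (by linarith)))
    have h2 : ∫ u in (H δ)..(H (2 * π - δ)), w δ ≤ ∫ u in (H δ)..(H (2 * π - δ)), g u := by
      refine intervalIntegral.integral_mono_on h1 (continuous_const.intervalIntegrable _ _)
        (hgc.intervalIntegrable _ _) (fun u hu => ?_)
      have a1 : δ ≤ G u := (hle _ _).mp hu.1
      have a2 : G u ≤ 2 * π - δ := (hle' _ _).mp hu.2
      rcases le_total (G u) π with b | b
      · exact w_mono hδ.le a1 b
      · simp only [hg]
        rw [← w_refl (G u)]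
        exact w_mono hδ.le (by linarith) (by linarith)
    rw [intervalIntegral.integral_const, smul_eq_mul, hperδ] at h2
    rw [hperδ]
    linarith
  · set m := (H δ - H (-δ)) / M with hm
    have hm0 : 0 < m := div_pos (sub_pos.mpr (h.mono (by linarith))) hM
    have hmM : H δ - H (-δ) = M * m := by rw [hm]; field_simp
    have stepL : ∀ u, 3 * δ ≤ G u → G u ≤ 2 * π - δ → (G u - δ) / 2 ≤ G (u - m) := by
      intro u h1 h2
      rw [← hle]
      have hq := h.qs2 ((G u - δ) / 2) ((G u - δ) / 2 + δ) (by linarith) (by linarith)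
      rw [show (G u - δ) / 2 - ((G u - δ) / 2 + δ) = -δ by ring,
        show (G u - δ) / 2 + ((G u - δ) / 2 + δ) = G u by ring, hHG] at hq
      have h3 : H δ ≤ H ((G u - δ) / 2) := h.mono.monotone (by linarith)
      have h4 : M * m ≤ M * (u - H ((G u - δ) / 2)) := by linarith
      have := le_of_mul_le_mul_left h4 hM
      linarith
    have stepR : ∀ u, 3 * δ ≤ 2 * π - G u → δ ≤ G u →
        (2 * π - G u - δ) / 2 ≤ 2 * π - G (u + m) := by
      intro u h1 h2
      have : G (u + m) ≤ 2 * π - (2 * π - G u - δ) / 2 := by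
        rw [← hle']
        have hq := h.qs1 (2 * π - (2 * π - G u - δ) / 2) ((2 * π - G u - δ) / 2 + δ)
          (by linarith) (by linarith)
        rw [show 2 * π - (2 * π - G u - δ) / 2 + ((2 * π - G u - δ) / 2 + δ) = 2 * π + δ by ring,
          show 2 * π - (2 * π - G u - δ) / 2 - ((2 * π - G u - δ) / 2 + δ) = G u by ring, hHG,
          hperδ'] at hq
        have h3 : H (2 * π - (2 * π - G u - δ) / 2) ≤ H (2 * π - δ) :=
          h.mono.monotone (by linarith)
        rw [hperδ] at h3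
        have h4 : M * m ≤ M * (H (2 * π - (2 * π - G u - δ) / 2) - u) := by linarith
        have := le_of_mul_le_mul_left h4 hM
        linarith
      linarith
    set u0 := H π with hu0
    have hGu0 : G u0 = π := hGH π
    have hGle : ∀ u, u ≤ u0 → G u ≤ π := fun u hu => hGu0 ▸ hGm hu
    have hGge : ∀ u, u0 ≤ u → π ≤ G u := fun u hu => hGu0 ▸ hGm hu
    have hL1 : (π - δ) / 2 ≤ G (u0 - m) := by
      have := stepL u0 (by linarith) (by linarith)
      rwa [hGu0] at this
    have hR1 : (π - δ) / 2 ≤ 2 * π - G (u0 + m) := by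
      have := stepR u0 (by linarith) (by linarith)
      rw [hGu0] at this
      linarith
    -- the two chains
    have hLstep : ∀ s, 0 ≤ s → ∀ j : ℕ, 3 * δ ≤ G (u0 - s - j * m) →
        (G (u0 - s - j * m) - δ) / 2 ≤ G (u0 - s - (j + 1 : ℕ) * m) := by
      intro s hs j hj
      have h1 : G (u0 - s - j * m) ≤ π := hGle _ (by
        have : 0 ≤ (j:ℝ) * m := by positivity
        linarith)
      have := stepL _ hj (by linarith)
      rwa [show u0 - s - j * m - m = u0 - s - (j + 1 : ℕ) * m by push_cast; ring] at this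
    have hRstep : ∀ s, s ≤ m → ∀ j : ℕ, 3 * δ ≤ 2 * π - G (u0 - s + m + j * m) →
        (2 * π - G (u0 - s + m + j * m) - δ) / 2 ≤ 2 * π - G (u0 - s + m + (j + 1 : ℕ) * m) := by
      intro s hs j hj
      have h1 : π ≤ G (u0 - s + m + j * m) := hGge _ (by
        have : 0 ≤ (j:ℝ) * m := by positivity
        linarith)
      have := stepR _ hj (by linarith)
      rwa [show u0 - s + m + j * m + m = u0 - s + m + (j + 1 : ℕ) * m by push_cast; ring] at this
    have hpt : ∀ s ∈ Icc 0 m, 2 * W (J + 2) (2 * π / 3) - (J + 2) * (4 * δ) ≤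
        ∑ j ∈ Finset.range (J + 2), g (u0 - s - j * m) +
        ∑ j ∈ Finset.range (J + 2), g (u0 - s + m + j * m) := by
      intro s hs
      have p0 : (π - δ) / 2 ≤ G (u0 - s) := hL1.trans (hGm (by linarith [hs.2]))
      have p0' : (π - δ) / 2 ≤ 2 * π - G (u0 - s + m) := by
        have : G (u0 - s + m) ≤ G (u0 + m) := hGm (by linarith [hs.1])
        linarith
      have p1 : G (u0 - s) ≤ π := hGle _ (by linarith [hs.1])
      have p1' : π ≤ G (u0 - s + m) := hGge _ (by linarith [hs.2])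
      have c1 := chain_sum J hδ (fun j => G (u0 - s - j * m))
        (fun j => hGle _ (by
          have : 0 ≤ (j:ℝ) * m := by positivity
          linarith [hs.1]))
        (hLstep s hs.1) (by simp only [Nat.cast_zero, zero_mul, sub_zero]; linarith)
      have c2 := chain_sum J hδ (fun j => 2 * π - G (u0 - s + m + j * m))
        (fun j => by
          have : π ≤ G (u0 - s + m + j * m) := hGge _ (by
            have : 0 ≤ (j:ℝ) * m := by positivity
            linarith [hs.2])
          linarith)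
        (hRstep s hs.2) (by simp only [Nat.cast_zero, zero_mul, add_zero]; linarith)
      simp only [Nat.cast_zero, zero_mul, sub_zero, add_zero, w_refl] at c1 c2
      have r1 := stepL (u0 - s + m) (by linarith) (by linarith)
      rw [add_sub_cancel_right] at r1
      have r2 := stepR (u0 - s) (by linarith) (by linarith)
      have c3 := W_pair J (t := min π (G (u0 - s) + δ)) (s := min π (2 * π - G (u0 - s + m) + δ))
        (min_le_left _ _) (min_le_left _ _)
        (by rcases min_cases π (G (u0 - s) + δ) with ⟨a, _⟩ | ⟨a, _⟩ <;>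
            rcases min_cases π (2 * π - G (u0 - s + m) + δ) with ⟨b, _⟩ | ⟨b, _⟩ <;>
            rw [a, b] <;> linarith)
        (by rcases min_cases π (G (u0 - s) + δ) with ⟨a, _⟩ | ⟨a, _⟩ <;>
            rcases min_cases π (2 * π - G (u0 - s + m) + δ) with ⟨b, _⟩ | ⟨b, _⟩ <;>
            rw [a, b] <;> linarith)
      simp only [hg]
      linarith
    have hI : ∫ s in (0:ℝ)..m, (2 * W (J + 2) (2 * π / 3) - (J + 2) * (4 * δ)) ≤
        ∫ s in (0:ℝ)..m, (∑ j ∈ Finset.range (J + 2), g (u0 - s - j * m) +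
          ∑ j ∈ Finset.range (J + 2), g (u0 - s + m + j * m)) :=
      intervalIntegral.integral_mono_on hm0.le (continuous_const.intervalIntegrable _ _)
        (Continuous.intervalIntegrable (by fun_prop) _ _) hpt
    rw [intervalIntegral.integral_const, smul_eq_mul, sub_zero] at hI
    refine hI.trans ?_
    rw [intervalIntegral.integral_add (Continuous.intervalIntegrable (by fun_prop) _ _)
      (Continuous.intervalIntegrable (by fun_prop) _ _),
      intervalIntegral.integral_finsetSum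
        (fun j _ => Continuous.intervalIntegrable (by fun_prop) _ _),
      intervalIntegral.integral_finsetSum
        (fun j _ => Continuous.intervalIntegrable (by fun_prop) _ _)]
    have eL : ∀ j : ℕ, ∫ s in (0:ℝ)..m, g (u0 - s - j * m)
        = -∫ u in (u0 - j * m)..(u0 - (j + 1 : ℕ) * m), g u := by
      intro j
      have : (fun s => g (u0 - s - j * m)) = fun s => g ((u0 - j * m) - s) := by
        ext s; congr 1; ring
      rw [this, intervalIntegral.integral_comp_sub_left g, intervalIntegral.integral_symm]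
      congr 2
      · simp
      · push_cast; ring
    have eR : ∀ j : ℕ, ∫ s in (0:ℝ)..m, g (u0 - s + m + j * m)
        = ∫ u in (u0 + j * m)..(u0 + (j + 1 : ℕ) * m), g u := by
      intro j
      have : (fun s => g (u0 - s + m + j * m)) = fun s => g ((u0 + m + j * m) - s) := by
        ext s; congr 1; ring
      rw [this, intervalIntegral.integral_comp_sub_left g]
      congr 1
      · ring
      · push_cast; ring
    simp_rw [eL, eR]
    rw [Finset.sum_neg_distrib,
      intervalIntegral.sum_integral_adjacent_intervals (a := fun j : ℕ => u0 - j * m)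
        (fun k _ => hgc.intervalIntegrable _ _),
      intervalIntegral.sum_integral_adjacent_intervals (a := fun j : ℕ => u0 + j * m)
        (fun k _ => hgc.intervalIntegrable _ _), ← intervalIntegral.integral_symm]
    simp only [Nat.cast_zero, zero_mul, sub_zero, add_zero]
    rw [intervalIntegral.integral_add_adjacent_intervals (hgc.intervalIntegrable _ _)
      (hgc.intervalIntegrable _ _)]
    have hpow : 4 * δ * 2 ^ J ≤ (π - δ) / 2 := by linarith
    have hend : ∀ x, (π - δ) / 2 ≤ x → 0 ≤ x / 2 ^ (J + 1) - δ := by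
      intro x hx
      have : δ ≤ x / 2 ^ (J + 1) := by
        rw [le_div_iff₀ (by positivity), pow_succ]
        have : 0 < δ * 2 ^ J := by positivity
        linarith
      linarith
    refine hsub _ _ ?_ ?_ ?_
    · have := chain J hδ (fun j => G (u0 - m - j * m)) (hLstep m hm0.le)
        (by simp only [Nat.cast_zero, zero_mul, sub_zero]; linarith) (J + 1) le_rfl
      simp only [Nat.cast_zero, zero_mul, sub_zero] at this
      have h2 := hend _ hL1
      rw [hle, show u0 - ((J + 2 : ℕ) : ℝ) * m = u0 - m - ((J + 1 : ℕ) : ℝ) * m by push_cast; ring]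
      linarith
    · have : 0 ≤ ((J + 2 : ℕ) : ℝ) * m := by positivity
      linarith
    · have := chain J hδ (fun j => 2 * π - G (u0 - 0 + m + j * m)) (hRstep 0 hm0.le)
        (by simp only [Nat.cast_zero, zero_mul, sub_zero, add_zero]; linarith) (J + 1) le_rfl
      simp only [Nat.cast_zero, zero_mul, sub_zero, add_zero] at this
      have h2 := hend _ hR1
      rw [← hper0, hle',
        show u0 + ((J + 2 : ℕ) : ℝ) * m = u0 + m + ((J + 1 : ℕ) : ℝ) * m by push_cast; ring]
      linarith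

end Pool.Agent.MP_e5b4ec_an
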